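import Pool.Agent.Helper5.NE.Posd
import Pool.Agent.Helper35.NE.LLN2

/-! Part NLB of swarm NE. -/

open MeasureTheory Filter Topology

namespace Pool.Agent.Helper5.NE

open Pool.Agent.Helper5.KM

variable {b : ℕ}

/-- the observable -/
noncomputable def Phi {b : ℕ} (X : ℝ) (r : ℕ) (G : (Fin r → Fin b) → ℂ) (L : ℕ) (y : Sq b) : ℂ :=
  e ((b : ℝ) ^ L * X * val y) * G (blk L r y)

theorem Phi_meas (X : ℝ) (r : ℕ) (G : (Fin r → Fin b) → ℂ) (L : ℕ) : Measurable (Phi X r G L) :=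
  (measurable_e.comp (measurable_val.const_mul _)).mul
    ((measurable_of_finite G).comp (measurable_blk _ _))

theorem Phi_le (X : ℝ) (r : ℕ) (G : (Fin r → Fin b) → ℂ) (hG : ∀ w, ‖G w‖ ≤ 1) (L : ℕ)
    (y : Sq b) : ‖Phi X r G L y‖ ≤ 1 := by
  unfold Phi
  rw [norm_mul, norm_e, one_mul]
  exact hG _

theorem Phi_int {μ : Measure (Sq b)} [IsProbabilityMeasure μ] (X : ℝ) (r : ℕ)
    (G : (Fin r → Fin b) → ℂ) (hG : ∀ w, ‖G w‖ ≤ 1) (L : ℕ) : Integrable (Phi X r G L) μ :=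
  Integrable.of_bound (Phi_meas X r G L).aestronglyMeasurable 1
    (Eventually.of_forall (Phi_le X r G hG L))

theorem Ps_lip (hb : 2 ≤ b) {μ : Measure (Sq b)} [IsProbabilityMeasure μ] (X X' : ℝ) (r : ℕ)
    (G : (Fin r → Fin b) → ℂ) (hG : ∀ w, ‖G w‖ ≤ 1) (L : ℕ) :
    Ps μ X r G L ≤ Ps μ X' r G L + 2 * Real.pi * (b : ℝ) ^ L * |X - X'| := by
  have hi := Phi_int (μ := μ) X r G hG L
  have hi' := Phi_int (μ := μ) X' r G hG L
  have h1 : ∀ᵐ y ∂μ, ‖(μ[Phi X r G L - Phi X' r G L | past b 0]) y‖ ≤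
      2 * Real.pi * (b : ℝ) ^ L * |X - X'| := by
    refine ae_bdd_norm_condExp_of_ae_bdd_norm (Eventually.of_forall fun y => ?_)
    simp only [Phi, Pi.sub_apply]
    rw [← sub_mul, norm_mul]
    have h2 := norm_e_sub_le ((b : ℝ) ^ L * X * val y) ((b : ℝ) ^ L * X' * val y)
    have h3 : (b : ℝ) ^ L * X * val y - (b : ℝ) ^ L * X' * val y =
        (b : ℝ) ^ L * (X - X') * val y := by ring
    rw [h3, abs_mul, abs_mul, abs_of_nonneg (val_nonneg y),
      abs_of_nonneg (by positivity : (0 : ℝ) ≤ (b : ℝ) ^ L)] at h2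
    have h4 : 2 * Real.pi * ((b : ℝ) ^ L * |X - X'| * val y) ≤
        2 * Real.pi * ((b : ℝ) ^ L * |X - X'| * 1) := by
      have := val_le_one hb y
      have hpi := Real.pi_pos
      gcongr
    calc _ ≤ (2 * Real.pi * ((b : ℝ) ^ L * |X - X'| * 1)) * 1 :=
          mul_le_mul (h2.trans h4) (hG _) (norm_nonneg _) (by positivity)
      _ = _ := by ring
  have h2 := condExp_sub hi hi' (past b 0)
  have h3 : ∫ y, ‖(μ[Phi X r G L | past b 0]) y‖ ∂μ ≤
      ∫ y, (‖(μ[Phi X' r G L | past b 0]) y‖ + 2 * Real.pi * (b : ℝ) ^ L * |X - X'|) ∂μ := by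
    refine integral_mono_ae integrable_condExp.norm
      (integrable_condExp.norm.add (integrable_const _)) ?_
    filter_upwards [h1, h2] with y hy1 hy2
    rw [hy2, Pi.sub_apply] at hy1
    have := norm_sub_norm_le ((μ[Phi X r G L | past b 0]) y) ((μ[Phi X' r G L | past b 0]) y)
    linarith
  rw [integral_add integrable_condExp.norm (integrable_const _), integral_const, probReal_univ,
    one_smul] at h3
  exact h3

/-- averages and shifts -/
theorem avg_shift (u v : ℕ → ℝ) (L n1 : ℕ) (c g : ℝ) (hu0 : ∀ n, 0 ≤ u n) (hv : ∀ n, v n ≤ 1)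
    (hc : 0 ≤ c) (huv : ∀ n, n1 ≤ n → v n ≤ u (n - L) + c)
    (hg : Tendsto (fun N : ℕ => (∑ n ∈ Finset.range N, u n) / (N : ℝ)) atTop (𝓝 g)) (ε : ℝ)
    (hε : 0 < ε) : ∀ᶠ N : ℕ in atTop, (∑ n ∈ Finset.range N, v n) / (N : ℝ) ≤ g + c + ε := by
  set m := max n1 L with hm
  have h1 : ∀ N : ℕ, ∑ n ∈ Finset.range N, v n ≤ m + ∑ n ∈ Finset.range N, u n + c * N := by
    intro N
    rcases le_or_gt N m with hN | hN
    · have h2 : ∑ n ∈ Finset.range N, v n ≤ N := by
        refine (Finset.sum_le_sum fun n _ => hv n).trans ?_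
        simp
      have h3 : (N : ℝ) ≤ m := by exact_mod_cast hN
      have h4 : 0 ≤ ∑ n ∈ Finset.range N, u n := Finset.sum_nonneg fun n _ => hu0 n
      have h5 : 0 ≤ c * N := by positivity
      linarith
    · rw [← Finset.sum_range_add_sum_Ico v hN.le]
      have h2 : ∑ n ∈ Finset.range m, v n ≤ m := by
        refine (Finset.sum_le_sum fun n _ => hv n).trans ?_
        simp
      have h3 : ∑ n ∈ Finset.Ico m N, v n ≤ ∑ n ∈ Finset.Ico m N, (u (n - L) + c) :=
        Finset.sum_le_sum fun n hn => huv n ((le_max_left _ _).trans (Finset.mem_Ico.1 hn).1)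
      rw [Finset.sum_add_distrib, Finset.sum_const, Nat.card_Ico, nsmul_eq_mul] at h3
      have h4 : ∑ n ∈ Finset.Ico m N, u (n - L) ≤ ∑ n ∈ Finset.range N, u n := by
        rw [← Finset.sum_image (f := u) (g := fun n => n - L) (s := Finset.Ico m N)]
        · refine Finset.sum_le_sum_of_subset_of_nonneg ?_ fun n _ _ => hu0 n
          intro x hx
          obtain ⟨n, hn, rfl⟩ := Finset.mem_image.1 hx
          rw [Finset.mem_Ico] at hn
          rw [Finset.mem_range]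
          omega
        · intro n hn n' hn' hnn
          rw [Finset.mem_coe, Finset.mem_Ico] at hn hn'
          have h5 : L ≤ m := le_max_right _ _
          simp only at hnn
          omega
      have h5 : ((N - m : ℕ) : ℝ) * c ≤ c * N := by
        rw [mul_comm]
        refine mul_le_mul_of_nonneg_left ?_ hc
        exact_mod_cast Nat.sub_le _ _
      linarith
  have h2 : Tendsto (fun N : ℕ => (m : ℝ) / N + (∑ n ∈ Finset.range N, u n) / (N : ℝ) + c) atTop
      (𝓝 (0 + g + c)) := by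
    refine ((tendsto_const_div_atTop_nhds_zero_nat _).add hg).add_const c
  filter_upwards [h2.eventually (gt_mem_nhds (show 0 + g + c < g + c + ε by linarith)),
    eventually_gt_atTop 0] with N hN hN0
  have hN0' : (0 : ℝ) < N := by exact_mod_cast hN0
  refine le_trans ?_ hN.le
  rw [div_le_iff₀ hN0', add_mul, add_mul, div_mul_cancel₀ _ hN0'.ne', div_mul_cancel₀ _ hN0'.ne']
  linarith [h1 N]

theorem nlb (hb : 2 ≤ b) {μ : Measure (Sq b)} [IsProbabilityMeasure μ]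
    (hfreeze : ∀ (f f' : ℝ → ℝ), Continuous f → Continuous f' → ∀ C : ℝ, 0 ≤ C →
      (∀ s ∈ Set.Icc (0 : ℝ) 1, ∀ t ∈ Set.Icc (0 : ℝ) 1,
        |f t - f s - f' s * (t - s)| ≤ C * (t - s) ^ 2) →
      ∀ (H : ℝ) (r : ℕ) (G : (Fin r → Fin b) → ℂ), (∀ w, ‖G w‖ ≤ 1) → ∀ (L n : ℕ), L ≤ n →
      ∀ (X δ : ℝ), 0 ≤ δ →
      ∀ᵐ y ∂μ, |H * f' ((Bk (n - L) y : ℝ) / (b : ℝ) ^ (n - L)) - X| ≤ δ →
        ‖(μ[fun y => e (H * (b : ℝ) ^ n * f (val y)) * G (blk n r y) |
            past b ((n : ℤ) - L)]) y‖ ≤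
          ‖(μ[fun y => e ((b : ℝ) ^ L * X * val y) * G (blk L r y) | past b 0])
            (sh ((n : ℤ) - L) y)‖ + 2 * Real.pi * (b : ℝ) ^ L * δ +
            2 * Real.pi * |H| * C * (b : ℝ) ^ (2 * L) / (b : ℝ) ^ n)
    (h : Ergodic (sh 1) μ) (f f' : ℝ → ℝ) (hf : Continuous f) (hf' : Continuous f')
    (C : ℝ) (hC : 0 ≤ C)
    (hT : ∀ s ∈ Set.Icc (0 : ℝ) 1, ∀ t ∈ Set.Icc (0 : ℝ) 1,
      |f t - f s - f' s * (t - s)| ≤ C * (t - s) ^ 2)
    (hL : ∀ s ∈ Set.Icc (0 : ℝ) 1, ∀ t ∈ Set.Icc (0 : ℝ) 1, |f t - f s| ≤ C * |t - s|)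
    (hL' : ∀ s ∈ Set.Icc (0 : ℝ) 1, ∀ t ∈ Set.Icc (0 : ℝ) 1, |f' t - f' s| ≤ C * |t - s|)
    (H : ℝ) (r : ℕ) (G : (Fin r → Fin b) → ℂ) (hG : ∀ w, ‖G w‖ ≤ 1)
    (a : ℕ → ℂ) (ha : ∀ n, ‖a n‖ ≤ 1) (L : ℕ) :
    ∀ᵐ y ∂μ, ∀ δ : ℝ, 0 < δ → ∀ᶠ N : ℕ in atTop,
      ‖(∑ n ∈ Finset.range N, a n * (e (H * (b : ℝ) ^ n * f (val y)) * G (blk n r y))) / N‖ ≤
        Ps μ (H * f' (val y)) r G L + δ := by
  have hb0 : (0 : ℝ) < b := by exact_mod_cast (by omega : 0 < b)
  have hb1 : (1 : ℝ) < b := by exact_mod_cast (by omega : 1 < b)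
  have hpi := Real.pi_pos
  have hval : ∀ y : Sq b, val y ∈ Set.Icc (0 : ℝ) 1 := fun y => ⟨val_nonneg y, val_le_one hb y⟩
  -- prefixes
  have hpre : ∀ (k : ℕ) (y : Sq b), (Bk k y : ℝ) / (b : ℝ) ^ k ∈ Set.Icc (0 : ℝ) 1 ∧
      |val y - (Bk k y : ℝ) / (b : ℝ) ^ k| ≤ (1 / (b : ℝ)) ^ k := by
    intro k y
    have h1 := pow_mul_val hb k y
    have hbk : (0 : ℝ) < (b : ℝ) ^ k := by positivity
    have h2 : val y - (Bk k y : ℝ) / (b : ℝ) ^ k = val (sh k y) / (b : ℝ) ^ k := by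
      rw [eq_div_iff hbk.ne', sub_mul, div_mul_cancel₀ _ hbk.ne', mul_comm, h1]; ring
    have h3 := val_nonneg (sh (k : ℤ) y)
    have h4 := val_le_one hb (sh (k : ℤ) y)
    have h5 : val (sh k y) / (b : ℝ) ^ k ≤ 1 / (b : ℝ) ^ k := by gcongr
    have h6 : 0 ≤ val (sh k y) / (b : ℝ) ^ k := by positivity
    refine ⟨⟨by positivity, ?_⟩, ?_⟩
    · have := (hval y).2; linarith
    · rw [h2, abs_of_nonneg h6, one_div_pow]; exact h5
  set W : ℕ → Sq b → ℂ := fun n y => e (H * (b : ℝ) ^ n * f (val y)) * G (blk n r y) with hW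
  have hWm : ∀ n, Measurable (W n) := fun n =>
    (measurable_e.comp ((hf.measurable.comp measurable_val).const_mul _)).mul
      ((measurable_of_finite G).comp (measurable_blk _ _))
  have hW1 : ∀ n y, ‖W n y‖ ≤ 1 := fun n y => by
    simp only [hW]; rw [norm_mul, norm_e, one_mul]; exact hG _
  have hlln := Pool.Agent.Helper35.NE.lln2 (μ := μ) W hWm hW1
    (2 * Real.pi * |H| * C + (b : ℝ) ^ r) (1 / (b : ℝ)) (by positivity)
    (by rw [div_lt_one hb0]; exact hb1) (by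
      intro n k
      rcases Nat.lt_or_ge k r with hk | hk
      · refine ⟨fun _ => 0, stronglyMeasurable_const, fun y => by simp, fun y => ?_⟩
        rw [sub_zero]
        refine (hW1 n y).trans ?_
        have h1 : (b : ℝ) ^ k ≤ (b : ℝ) ^ r := pow_le_pow_right₀ hb1.le hk.le
        have h2 : 1 ≤ (b : ℝ) ^ r * (1 / (b : ℝ)) ^ k := by
          rw [one_div, inv_pow, ← div_eq_mul_inv, one_le_div (by positivity)]
          exact h1
        have h3 : 0 ≤ 2 * Real.pi * |H| * C * (1 / (b : ℝ)) ^ k := by positivity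
        nlinarith
      · refine ⟨fun y => e (H * (b : ℝ) ^ n * f ((Bk (n + k) y : ℝ) / (b : ℝ) ^ (n + k))) *
          G (blk n r y), ?_, ?_, ?_⟩
        · have h4 : Measurable[past b ((n + k : ℕ) : ℤ)] (fun y : Sq b =>
              e (H * (b : ℝ) ^ n * f ((Bk (n + k) y : ℝ) / (b : ℝ) ^ (n + k)))) :=
            measurable_e.comp ((hf.measurable.comp
              ((measurable_Bk (n + k)).div_const _)).const_mul _)
          have h3 : Measurable[past b ((n + k : ℕ) : ℤ)] (fun y : Sq b => G (blk (n : ℤ) r y)) :=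
            (measurable_of_finite G).comp (measurable_blk_past (n : ℤ) r _ (by push_cast; omega))
          exact (h4.mul h3).stronglyMeasurable
        · intro y
          rw [norm_mul, norm_e, one_mul]; exact hG _
        · intro y
          simp only [hW]
          rw [← sub_mul, norm_mul]
          have h1 := norm_e_sub_le (H * (b : ℝ) ^ n * f (val y))
            (H * (b : ℝ) ^ n * f ((Bk (n + k) y : ℝ) / (b : ℝ) ^ (n + k)))
          rw [← mul_sub, abs_mul, abs_mul,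
            abs_of_pos (by positivity : (0 : ℝ) < (b : ℝ) ^ n)] at h1
          have h2 := hL _ (hpre (n + k) y).1 _ (hval y)
          have h3 := h2.trans (mul_le_mul_of_nonneg_left (hpre (n + k) y).2 hC)
          have h4 : |H| * (b : ℝ) ^ n *
              |f (val y) - f ((Bk (n + k) y : ℝ) / (b : ℝ) ^ (n + k))| ≤
              |H| * (b : ℝ) ^ n * (C * (1 / (b : ℝ)) ^ (n + k)) :=
            mul_le_mul_of_nonneg_left h3 (by positivity)
          have h5 : |H| * (b : ℝ) ^ n * (C * (1 / (b : ℝ)) ^ (n + k)) =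
              |H| * C * (1 / (b : ℝ)) ^ k := by
            rw [pow_add, one_div_pow (n := n)]
            field_simp
          rw [h5] at h4
          have h6 : ‖e (H * (b : ℝ) ^ n * f (val y)) -
              e (H * (b : ℝ) ^ n * f ((Bk (n + k) y : ℝ) / (b : ℝ) ^ (n + k)))‖ ≤
              2 * Real.pi * (|H| * C * (1 / (b : ℝ)) ^ k) :=
            h1.trans (mul_le_mul_of_nonneg_left h4 (by positivity))
          have h7 := mul_le_mul h6 (hG (blk (n : ℤ) r y)) (norm_nonneg _) (by positivity)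
          refine h7.trans ?_
          have h8 : 0 ≤ (b : ℝ) ^ r * (1 / (b : ℝ)) ^ k := by positivity
          nlinarith) L a ha
  set E : ℕ → Sq b → ℂ := fun n => μ[W n | past b ((n : ℤ) - L)] with hE
  have hE1 : ∀ᵐ y ∂μ, ∀ n, ‖E n y‖ ≤ 1 := by
    rw [ae_all_iff]
    intro n
    exact ae_bdd_norm_condExp_of_ae_bdd_norm (Eventually.of_forall (hW1 n))
  have hfr : ∀ᵐ y ∂μ, ∀ (X δ : ℚ), 0 ≤ δ → ∀ n : ℕ, L ≤ n →
      |H * f' ((Bk (n - L) y : ℝ) / (b : ℝ) ^ (n - L)) - X| ≤ δ →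
        ‖E n y‖ ≤ ‖(μ[Phi (X : ℝ) r G L | past b 0]) (sh ((n : ℤ) - L) y)‖ +
          2 * Real.pi * (b : ℝ) ^ L * δ +
            2 * Real.pi * |H| * C * (b : ℝ) ^ (2 * L) / (b : ℝ) ^ n := by
    rw [ae_all_iff]; intro X
    rw [ae_all_iff]; intro δ
    rw [ae_all_iff]; intro hδ
    rw [ae_all_iff]; intro n
    rw [ae_all_iff]; intro hn
    exact hfreeze f f' hf hf' C hC hT H r G hG L n hn X δ (by exact_mod_cast hδ)
  have hbk : ∀ᵐ y ∂μ, ∀ X : ℚ, Tendsto (fun n =>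
      birkhoffAverage ℝ (sh 1) (fun y => ‖(μ[Phi (X : ℝ) r G L | past b 0]) y‖) n y) atTop
      (𝓝 (Ps μ X r G L)) := by
    rw [ae_all_iff]; intro X
    exact birk h integrable_condExp.norm
  filter_upwards [hlln, hE1, hfr, hbk] with y hy1 hy2 hy3 hy4 δ hδ
  have hiter : ∀ n : ℕ, (sh 1 : Sq b → Sq b)^[n] y = sh n y := by
    intro n
    induction n with
    | zero => simp [sh_zero]
    | succ n ih =>
      rw [Function.iterate_succ_apply', ih, sh_sh]
      congr 1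
      push_cast
      ring
  set K1 : ℝ := 2 * Real.pi * (b : ℝ) ^ L with hK1
  have hK1p : 0 < K1 := by positivity
  obtain ⟨δ1, hδ1, hδ1'⟩ := exists_rat_btwn (show (0 : ℝ) < δ / (8 * K1) by positivity)
  have hδ1r : K1 * δ1 ≤ δ / 8 := by
    rw [lt_div_iff₀ (by positivity)] at hδ1'
    linarith
  set X0 : ℝ := H * f' (val y) with hX0
  obtain ⟨X, hX1, hX2⟩ := exists_rat_btwn (show X0 - δ1 < X0 by linarith)
  have hXX : |(X : ℝ) - X0| ≤ δ1 := by rw [abs_le]; constructor <;> linarith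
  -- eventually the prefix is good
  have hgeo : Tendsto (fun n : ℕ => (1 / (b : ℝ)) ^ n) atTop (𝓝 0) :=
    tendsto_pow_atTop_nhds_zero_of_lt_one (by positivity) (by rw [div_lt_one hb0]; exact hb1)
  have hev1 : ∀ᶠ n : ℕ in atTop, |H| * C * (1 / (b : ℝ)) ^ n < δ1 := by
    have := hgeo.const_mul (|H| * C)
    rw [mul_zero] at this
    exact this.eventually (gt_mem_nhds hδ1)
  have hev2 : ∀ᶠ n : ℕ in atTop, 2 * Real.pi * |H| * C * (b : ℝ) ^ (2 * L) / (b : ℝ) ^ n <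
      δ / 8 := by
    have := hgeo.const_mul (2 * Real.pi * |H| * C * (b : ℝ) ^ (2 * L))
    rw [mul_zero] at this
    refine (this.eventually (gt_mem_nhds (show (0 : ℝ) < δ / 8 by positivity))).mono fun n hn => ?_
    rwa [one_div_pow, mul_one_div] at hn
  obtain ⟨m1, hm1⟩ := eventually_atTop.1 hev1
  obtain ⟨m2, hm2⟩ := eventually_atTop.1 hev2
  set u : ℕ → ℝ := fun n => ‖(μ[Phi (X : ℝ) r G L | past b 0]) (sh (n : ℤ) y)‖ with hu
  have huv : ∀ n, max (m1 + L) m2 ≤ n → ‖a n * E n y‖ ≤ u (n - L) + (δ / 4 + δ / 8) := by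
    intro n hn
    have hn1 : m1 + L ≤ n := (le_max_left _ _).trans hn
    have hn2 : m2 ≤ n := (le_max_right _ _).trans hn
    have h1 : |H * f' ((Bk (n - L) y : ℝ) / (b : ℝ) ^ (n - L)) - X| ≤ ((2 * δ1 : ℚ) : ℝ) := by
      have h2 := hL' _ (hval y) _ (hpre (n - L) y).1
      have h3 : |H * f' ((Bk (n - L) y : ℝ) / (b : ℝ) ^ (n - L)) - X0| ≤
          |H| * C * (1 / (b : ℝ)) ^ (n - L) := by
        rw [hX0, ← mul_sub, abs_mul, mul_assoc]
        refine mul_le_mul_of_nonneg_left (h2.trans ?_) (abs_nonneg _)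
        rw [abs_sub_comm]
        exact mul_le_mul_of_nonneg_left (hpre (n - L) y).2 hC
      have h4 := hm1 (n - L) (by omega)
      have h5 : |H * f' ((Bk (n - L) y : ℝ) / (b : ℝ) ^ (n - L)) - X| ≤
          |H * f' ((Bk (n - L) y : ℝ) / (b : ℝ) ^ (n - L)) - X0| + |X0 - X| := abs_sub_le _ _ _
      rw [abs_sub_comm X0] at h5
      push_cast
      linarith
    have h6 := hy3 X (2 * δ1) (by have : (0 : ℚ) < δ1 := by exact_mod_cast hδ1
                                  linarith) n (by omega) h1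
    have h7 : ((n : ℤ) - L) = ((n - L : ℕ) : ℤ) := by push_cast [Nat.cast_sub (show L ≤ n by omega)]; ring
    rw [h7] at h6
    have h8 := hm2 n hn2
    push_cast at h6
    have h9 : ‖a n * E n y‖ ≤ ‖E n y‖ := by
      rw [norm_mul]; exact mul_le_of_le_one_left (norm_nonneg _) (ha n)
    have h10 : 2 * Real.pi * (b : ℝ) ^ L * (2 * δ1) ≤ δ / 4 := by
      rw [← hK1]; linarith
    simp only [hu]
    linarith
  have hbk' : Tendsto (fun N : ℕ => (∑ n ∈ Finset.range N, u n) / (N : ℝ)) atTop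
      (𝓝 (Ps μ X r G L)) := by
    refine (hy4 X).congr fun N => ?_
    unfold birkhoffAverage birkhoffSum
    rw [smul_eq_mul, inv_mul_eq_div]
    congr 1
    refine Finset.sum_congr rfl fun n _ => ?_
    rw [hiter]
  have havg := avg_shift u (fun n => ‖a n * E n y‖) L (max (m1 + L) m2) (δ / 4 + δ / 8)
    (Ps μ X r G L) (fun n => norm_nonneg _) (fun n => by
      rw [norm_mul]
      exact mul_le_one₀ (ha n) (norm_nonneg _) (hy2 n)) (by positivity) huv hbk' (δ / 8)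
    (by positivity)
  have hlip := Ps_lip hb (μ := μ) (X : ℝ) X0 r G hG L
  rw [← hK1] at hlip
  have hlip' : Ps μ X r G L ≤ Ps μ X0 r G L + δ / 8 := by
    have : K1 * |(X : ℝ) - X0| ≤ K1 * δ1 := mul_le_mul_of_nonneg_left hXX hK1p.le
    linarith
  have hl := (tendsto_zero_iff_norm_tendsto_zero.1 hy1).eventually
    (gt_mem_nhds (show (0 : ℝ) < δ / 8 by positivity))
  filter_upwards [havg, hl] with N hN1 hN2
  have e1 : (∑ n ∈ Finset.range N, a n * W n y) / (N : ℂ) =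
      (∑ n ∈ Finset.range N, a n * (W n y - E n y)) / (N : ℂ) +
        (∑ n ∈ Finset.range N, a n * E n y) / (N : ℂ) := by
    rw [← add_div, ← Finset.sum_add_distrib]
    congr 1
    exact Finset.sum_congr rfl fun n _ => by ring
  have e2 : ‖(∑ n ∈ Finset.range N, a n * E n y) / (N : ℂ)‖ ≤
      (∑ n ∈ Finset.range N, ‖a n * E n y‖) / (N : ℝ) := by
    rw [norm_div, Complex.norm_natCast]
    gcongr
    exact norm_sum_le _ _
  show ‖(∑ n ∈ Finset.range N, a n * W n y) / (N : ℂ)‖ ≤ _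
  rw [e1]
  refine (norm_add_le _ _).trans ?_
  linarith

end Pool.Agent.Helper5.NE
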