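import Pool.Agent.Helper5.NE.Defs

/-! Part WORD of swarm NE: a supermartingale. -/

open MeasureTheory Filter Topology

namespace Pool.Agent.Helper5.NE

open Pool.Agent.Helper5.KM

variable {b : ℕ}

theorem word_bound {μ : Measure (Sq b)} [IsProbabilityMeasure μ]
    (h : MeasurePreserving (sh 1) μ μ) (κ α : ℝ) (hκ : 0 < κ) (hκ1 : κ < 1) (hα : 0 < α)
    (p : Fin b → Sq b → ℝ) (hp : ∀ d, Measurable[past b 0] (p d))
    (hp1 : ∀ d y, 0 ≤ p d y ∧ p d y ≤ 1)
    (hpc : ∀ d, μ[({y : Sq b | y 0 = d}).indicator (fun _ => (1 : ℝ)) | past b 0] =ᵐ[μ] p d)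
    (n : ℕ) (w : Fin n → Fin b) :
    μ.real {y | blk 0 n y = w ∧ α * n ≤
        (((Finset.range n).filter fun j : ℕ => p (y (j : ℤ)) (sh (j : ℤ) y) ≤ 1 - κ).card : ℝ)} ≤
      (1 - κ) ^ (α * n) := by
  classical
  obtain ⟨y₀⟩ : Nonempty (Sq b) := nonempty_of_isProbabilityMeasure μ
  set w' : ℕ → Fin b := fun j => if hj : j < n then w ⟨j, hj⟩ else y₀ 0 with hw'
  have h1κ : 0 < 1 - κ := by linarith
  set ρ : ℝ := 1 / (1 - κ) with hρ
  have hρ1 : 1 ≤ ρ := by rw [hρ, le_div_iff₀ h1κ]; linarith
  have hρ0 : 0 < ρ := by positivity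
  set m : Fin b → Sq b → ℝ := fun d y => if p d y ≤ 1 - κ then ρ else 1 with hm
  have hmm : ∀ d, Measurable[past b 0] (m d) := fun d =>
    Measurable.ite ((hp d) measurableSet_Iic) measurable_const measurable_const
  have hm1 : ∀ d y, 1 ≤ m d y ∧ m d y ≤ ρ := by
    intro d y
    simp only [hm]
    split_ifs
    · exact ⟨hρ1, le_rfl⟩
    · exact ⟨le_rfl, hρ1⟩
  have hpm : ∀ d y, p d y * m d y ≤ 1 := by
    intro d y
    simp only [hm]
    split_ifs with h1
    · rw [hρ, mul_one_div, div_le_one h1κ]; exact h1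
    · rw [mul_one]; exact (hp1 d y).2
  set M : ℕ → Sq b → ℝ := fun k y =>
    ∏ j ∈ Finset.range k, (if y (j : ℤ) = w' j then m (w' j) (sh (j : ℤ) y) else 0) with hM
  have hfac : ∀ j : ℕ, Measurable[past b ((j : ℤ) + 1)]
      (fun y : Sq b => if y (j : ℤ) = w' j then m (w' j) (sh (j : ℤ) y) else (0 : ℝ)) := by
    intro j
    refine Measurable.ite ?_ ?_ measurable_const
    · exact (measurable_coord (b := b) (show (j : ℤ) < (j : ℤ) + 1 by omega))
        (measurableSet_singleton (w' j))
    · have h2 := (hmm (w' j)).comp (measurable_sh_past (b := b) (j : ℤ) 0)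
      rw [zero_add] at h2
      exact h2.mono (past_mono (by omega)) le_rfl
  have hMm : ∀ k : ℕ, Measurable[past b (k : ℤ)] (M k) := by
    intro k
    refine Finset.measurable_prod (m := past b (k : ℤ)) _ fun j hj => ?_
    have hj' : j < k := Finset.mem_range.1 hj
    exact (hfac j).mono (past_mono (by omega)) le_rfl
  have hMb : ∀ k y, 0 ≤ M k y ∧ M k y ≤ ρ ^ k := by
    intro k y
    have h0 : ∀ j : ℕ, 0 ≤ (if y (j : ℤ) = w' j then m (w' j) (sh (j : ℤ) y) else 0) := fun j => by
      split_ifs
      · exact zero_le_one.trans (hm1 _ _).1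
      · exact le_rfl
    refine ⟨Finset.prod_nonneg fun j _ => h0 j, ?_⟩
    refine (Finset.prod_le_prod (fun j _ => h0 j) fun j _ => ?_).trans (le_of_eq ?_) (b :=
      ∏ j ∈ Finset.range k, ρ)
    · split_ifs
      · exact (hm1 _ _).2
      · exact hρ0.le
    · rw [Finset.prod_const, Finset.card_range]
  have hMi : ∀ k, Integrable (M k) μ := fun k =>
    Integrable.of_bound ((hMm k).mono (past_le _) le_rfl).aestronglyMeasurable (ρ ^ k)
      (Eventually.of_forall fun y => by
        rw [Real.norm_eq_abs, abs_of_nonneg (hMb k y).1]; exact (hMb k y).2)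
  have hint : ∀ k, ∫ y, M k y ∂μ ≤ 1 := by
    intro k
    induction k with
    | zero => simp [hM]
    | succ k ih =>
      refine le_trans ?_ ih
      set d := w' k with hd
      -- the past factor
      set F : Sq b → ℝ := fun y => M k (sh (-(k : ℤ)) y) * m d y with hF
      have hFm : StronglyMeasurable[past b 0] F := by
        have h2 := (hMm k).comp (measurable_sh_past (b := b) (-(k : ℤ)) (k : ℤ))
        rw [show (k : ℤ) + -(k : ℤ) = 0 by ring] at h2
        exact (h2.mul (hmm d)).stronglyMeasurable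
      have hFb : ∀ y, ‖F y‖ ≤ ρ ^ k * ρ := by
        intro y
        simp only [hF]
        rw [norm_mul, Real.norm_eq_abs, Real.norm_eq_abs, abs_of_nonneg (hMb k _).1,
          abs_of_nonneg (zero_le_one.trans (hm1 d y).1)]
        exact mul_le_mul (hMb k _).2 (hm1 d y).2 (zero_le_one.trans (hm1 d y).1) (by positivity)
      set I : Sq b → ℝ := ({y : Sq b | y 0 = d}).indicator (fun _ => (1 : ℝ)) with hI
      have hIm : MeasurableSet {y : Sq b | y 0 = d} := by
        have h9 : Measurable (fun y : Sq b => y 0) := measurable_pi_apply (0 : ℤ)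
        exact h9 (measurableSet_singleton d)
      have hIi : Integrable I μ := (integrable_const _).indicator hIm
      have hFIi : Integrable (F * I) μ := by
        refine Integrable.of_bound ((hFm.mono (past_le 0)).aestronglyMeasurable.mul
          hIi.aestronglyMeasurable) (ρ ^ k * ρ * 1) (Eventually.of_forall fun y => ?_)
        rw [Pi.mul_apply, norm_mul]
        refine mul_le_mul (hFb y) ?_ (norm_nonneg _) (by positivity)
        simp only [hI, Set.indicator_apply]
        split_ifs <;> simp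
      have e1 : ∫ y, M (k + 1) y ∂μ = ∫ y, F y * I y ∂μ := by
        have e2 := (mp_sh h (k : ℤ)).integral_comp (shEquiv (b := b) _).measurableEmbedding
          (fun y => F y * I y)
        rw [← e2]
        refine integral_congr_ae (Eventually.of_forall fun y => ?_)
        simp only [hF, hI, hM, Set.indicator_apply, Set.mem_ofPred_eq]
        rw [Finset.prod_range_succ, sh_sh, neg_add_cancel, sh_zero]
        have e3 : sh (k : ℤ) y 0 = y (k : ℤ) := by simp [sh]
        by_cases h3 : y (k : ℤ) = w' k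
        · rw [if_pos h3, if_pos (e3.trans h3), mul_one]
        · rw [if_neg h3, if_neg (fun h4 => h3 (e3.symm.trans h4)), mul_zero, mul_zero]
      have e4 : ∫ y, F y * I y ∂μ = ∫ y, F y * p d y ∂μ := by
        have e5 := condExp_mul_of_stronglyMeasurable_left (μ := μ) hFm hFIi hIi
        have e6 : ∫ y, (F * I) y ∂μ = ∫ y, (μ[F * I | past b 0]) y ∂μ :=
          (integral_condExp (past_le 0)).symm
        have e7 : ∫ y, (μ[F * I | past b 0]) y ∂μ = ∫ y, F y * p d y ∂μ := by
          refine integral_congr_ae ?_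
          filter_upwards [e5, hpc d] with y h5 h6
          rw [h5, Pi.mul_apply, h6]
        rw [← e7, ← e6]
        rfl
      rw [e1, e4]
      have e8 : ∫ y, M k y ∂μ = ∫ y, M k (sh (-(k : ℤ)) y) ∂μ :=
        ((mp_sh h (-(k : ℤ))).integral_comp (shEquiv (b := b) _).measurableEmbedding (M k)).symm
      rw [e8]
      refine integral_mono ?_ ?_ fun y => ?_
      · refine Integrable.of_bound ((hFm.mono (past_le 0)).aestronglyMeasurable.mul
          ((hp d).mono (past_le 0) le_rfl).aestronglyMeasurable) (ρ ^ k * ρ * 1)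
          (Eventually.of_forall fun y => ?_)
        rw [norm_mul]
        refine mul_le_mul (hFb y) ?_ (norm_nonneg _) (by positivity)
        rw [Real.norm_eq_abs, abs_of_nonneg (hp1 d y).1]
        exact (hp1 d y).2
      · exact (mp_sh h (-(k : ℤ))).integrable_comp_of_integrable (hMi k)
      · simp only [hF]
        have h2 := hpm d y
        have h3 := (hMb k (sh (-(k : ℤ)) y)).1
        calc M k (sh (-(k : ℤ)) y) * m d y * p d y
            = M k (sh (-(k : ℤ)) y) * (p d y * m d y) := by ring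
          _ ≤ M k (sh (-(k : ℤ)) y) * 1 := mul_le_mul_of_nonneg_left h2 h3
          _ = _ := mul_one _
  -- Markov
  have hmk := mul_meas_ge_le_integral_of_nonneg (μ := μ) (f := M n)
    (Eventually.of_forall fun y => (hMb n y).1) (hMi n) (ρ ^ (α * n))
  have hsub : {y | blk 0 n y = w ∧ α * n ≤
        (((Finset.range n).filter fun j : ℕ => p (y (j : ℤ)) (sh (j : ℤ) y) ≤ 1 - κ).card : ℝ)} ⊆
      {y | ρ ^ (α * n) ≤ M n y} := by
    rintro y ⟨hy1, hy2⟩
    have hyw : ∀ j ∈ Finset.range n, y (j : ℤ) = w' j := by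
      intro j hj
      have hj' : j < n := Finset.mem_range.1 hj
      have h2 := congrFun hy1 ⟨j, hj'⟩
      simp only [blk, zero_add] at h2
      rw [hw']
      simp only [hj', dif_pos]
      exact h2
    have e1 : M n y = ρ ^ (((Finset.range n).filter fun j : ℕ =>
        p (y (j : ℤ)) (sh (j : ℤ) y) ≤ 1 - κ).card) := by
      simp only [hM]
      rw [Finset.prod_congr rfl (g := fun j : ℕ =>
        if p (y (j : ℤ)) (sh (j : ℤ) y) ≤ 1 - κ then ρ else 1) fun j hj => by
          rw [if_pos (hyw j hj)]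
          simp only [hm]
          rw [← hyw j hj]]
      rw [Finset.prod_ite, Finset.prod_const, Finset.prod_const_one, mul_one]
    show ρ ^ (α * n) ≤ M n y
    rw [e1, ← Real.rpow_natCast]
    exact Real.rpow_le_rpow_of_exponent_le hρ1 hy2
  have h2 := measureReal_mono (μ := μ) hsub
  have h3 : ρ ^ (α * n) * μ.real {y | ρ ^ (α * n) ≤ M n y} ≤ 1 := hmk.trans (hint n)
  have h4 : (0 : ℝ) < ρ ^ (α * n) := Real.rpow_pos_of_pos hρ0 _
  have h5 : (1 - κ) ^ (α * n) = 1 / ρ ^ (α * n) := by
    rw [hρ, Real.div_rpow zero_le_one h1κ.le, Real.one_rpow, one_div_one_div]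
  rw [h5, le_div_iff₀ h4, mul_comm]
  exact (mul_le_mul_of_nonneg_left h2 h4.le).trans h3

end Pool.Agent.Helper5.NE
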