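import Pool.Agent.Helper5.NE.Near
import Pool.Agent.Helper5.NE.Word
import Pool.Agent.Helper5.NE.Nlb
import Pool.Agent.Helper5.KM.Zero
import Pool.Agent.Helper6.NE.INT
import Pool.Agent.Helper6.NE.NULLW
import Pool.Agent.Helper6.NE.PSQ
import Pool.Agent.Helper35.NE.FREEZE
import Pool.Agent.Helper48.NE.Null

/-! Part AES of swarm NE: the exponential sums. -/

open MeasureTheory Filter Topology

namespace Pool.Agent.Helper5.NE

open Pool.Agent.Helper5.KM
open Pool.Agent.Helper6.NE (nullw int_words ps_Qf)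
open Pool.Agent.Helper35.NE (freeze)
open Pool.Agent.Helper48.NE (null_of)
open Pool.Agent.Helper44.KM (int_abs_le_sqrt Qf_sq_int)

variable {b : ℕ}

/-- projection to `[0, 1]` -/
noncomputable def clamp (t : ℝ) : ℝ := max 0 (min 1 t)

theorem clamp_mem (t : ℝ) : clamp t ∈ Set.Icc (0 : ℝ) 1 :=
  ⟨le_max_left _ _, max_le zero_le_one (min_le_left _ _)⟩

theorem clamp_of_mem {t : ℝ} (h : t ∈ Set.Icc (0 : ℝ) 1) : clamp t = t := by
  unfold clamp
  rw [min_eq_right h.2, max_eq_right h.1]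

theorem continuous_clamp : Continuous clamp := continuous_const.max (continuous_const.min continuous_id)

theorem comp_clamp {f : ℝ → ℝ} (hf : ContinuousOn f (Set.Icc 0 1)) : Continuous (fun t => f (clamp t)) :=
  hf.comp_continuous continuous_clamp clamp_mem

theorem lip_of_deriv {f f' : ℝ → ℝ} {S : Set ℝ} (hS : Convex ℝ S)
    (hf : ∀ t ∈ S, HasDerivWithinAt f (f' t) S t) {C : ℝ}
    (hC : ∀ t ∈ S, |f' t| ≤ C) (s : ℝ) (hs : s ∈ S) (t : ℝ) (ht : t ∈ S) :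
    |f t - f s| ≤ C * |t - s| := by
  have := hS.norm_image_sub_le_of_norm_hasDerivWithin_le hf (fun x hx => by
    rw [Real.norm_eq_abs]; exact hC x hx) hs ht
  simpa [Real.norm_eq_abs] using this

theorem taylor {f f' f'' : ℝ → ℝ}
    (hf : ∀ t ∈ Set.Icc (0 : ℝ) 1, HasDerivWithinAt f (f' t) (Set.Icc 0 1) t)
    (hf' : ∀ t ∈ Set.Icc (0 : ℝ) 1, HasDerivWithinAt f' (f'' t) (Set.Icc 0 1) t) {C : ℝ}
    (hC : ∀ t ∈ Set.Icc (0 : ℝ) 1, |f'' t| ≤ C) (s : ℝ) (hs : s ∈ Set.Icc (0 : ℝ) 1) (t : ℝ)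
    (ht : t ∈ Set.Icc (0 : ℝ) 1) : |f t - f s - f' s * (t - s)| ≤ C * (t - s) ^ 2 := by
  have hC0 : 0 ≤ C := (abs_nonneg _).trans (hC s hs)
  have hsub : Set.uIcc s t ⊆ Set.Icc (0 : ℝ) 1 := by
    intro u hu
    rw [Set.mem_uIcc] at hu
    rcases hu with h | h
    · exact ⟨hs.1.trans h.1, h.2.trans ht.2⟩
    · exact ⟨ht.1.trans h.1, h.2.trans hs.2⟩
  have h1 := lip_of_deriv (f := fun u => f u - f' s * u) (f' := fun u => f' u - f' s)
    (S := Set.uIcc s t) (convex_uIcc s t) (C := C * |t - s|) (fun u hu => by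
      have h2 : HasDerivWithinAt (fun u : ℝ => f' s * u) (f' s) (Set.uIcc s t) u := by
        simpa using (hasDerivWithinAt_id u (Set.uIcc s t)).const_mul (f' s)
      exact ((hf u (hsub hu)).mono hsub).fun_sub h2) (fun u hu => by
      refine (lip_of_deriv (convex_Icc 0 1) hf' hC s hs u (hsub hu)).trans ?_
      refine mul_le_mul_of_nonneg_left ?_ hC0
      rw [Set.mem_uIcc] at hu
      rcases hu with h | h
      · rw [abs_of_nonneg (by linarith), abs_of_nonneg (by linarith)]; linarith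
      · rw [abs_of_nonpos (by linarith), abs_of_nonpos (by linarith)]; linarith) s
      Set.left_mem_uIcc t Set.right_mem_uIcc
  have h2 : f t - f' s * t - (f s - f' s * s) = f t - f s - f' s * (t - s) := by ring
  simp only [h2] at h1
  refine h1.trans (le_of_eq ?_)
  rw [mul_assoc, ← sq, sq_abs]

theorem lower_of_deriv {f' f'' : ℝ → ℝ}
    (hf' : ∀ t ∈ Set.Icc (0 : ℝ) 1, HasDerivWithinAt f' (f'' t) (Set.Icc 0 1) t) {c s t : ℝ}
    (hc : ∀ u ∈ Set.Icc s t ∩ Set.Icc 0 1, c ≤ |f'' u|) :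
    ∀ u ∈ Set.Icc s t ∩ Set.Icc 0 1, ∀ v ∈ Set.Icc s t ∩ Set.Icc 0 1,
      c * |u - v| ≤ |f' u - f' v| := by
  have key : ∀ u ∈ Set.Icc s t ∩ Set.Icc 0 1, ∀ v ∈ Set.Icc s t ∩ Set.Icc 0 1, u < v →
      c * |u - v| ≤ |f' u - f' v| := by
    intro u hu v hv huv
    obtain ⟨x, hx, hx'⟩ := exists_hasDerivAt_eq_slope f' f'' huv
      (fun x hx => ((hf' x ⟨hu.2.1.trans hx.1, hx.2.trans hv.2.2⟩).continuousWithinAt).mono
        (fun z hz => ⟨hu.2.1.trans hz.1, hz.2.trans hv.2.2⟩))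
      (fun x hx => (hf' x ⟨hu.2.1.trans hx.1.le, hx.2.le.trans hv.2.2⟩).hasDerivAt
        (Icc_mem_nhds (lt_of_le_of_lt hu.2.1 hx.1) (lt_of_lt_of_le hx.2 hv.2.2)))
    have h1 := hc x ⟨⟨hu.1.1.trans hx.1.le, hx.2.le.trans hv.1.2⟩,
      ⟨hu.2.1.trans hx.1.le, hx.2.le.trans hv.2.2⟩⟩
    have h2 : 0 < v - u := by linarith
    rw [hx', abs_div, abs_of_pos h2, le_div_iff₀ h2] at h1
    rw [abs_sub_comm u v, abs_of_pos h2, abs_sub_comm (f' u)]
    exact h1
  intro u hu v hv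
  rcases lt_trichotomy u v with h | h | h
  · exact key u hu v hv h
  · subst h; simp
  · have := key v hv u hu h
    rwa [abs_sub_comm v u, abs_sub_comm (f' v)] at this

theorem ae_sums (hb : 2 ≤ b) {μ : Measure (Sq b)} [IsProbabilityMeasure μ] (h : EProc b μ)
    (f f' f'' : ℝ → ℝ) (hf : ∀ t ∈ Set.Icc (0 : ℝ) 1, HasDerivWithinAt f (f' t) (Set.Icc 0 1) t)
    (hf' : ∀ t ∈ Set.Icc (0 : ℝ) 1, HasDerivWithinAt f' (f'' t) (Set.Icc 0 1) t)
    (hf'' : ContinuousOn f'' (Set.Icc (0 : ℝ) 1))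
    (H : ℤ) (hH : H ≠ 0) (r : ℕ) (G : (Fin r → Fin b) → ℂ) (hG : ∀ w, ‖G w‖ ≤ 1)
    (a : ℕ → ℂ) (ha : ∀ n, ‖a n‖ ≤ 1) :
    ∀ᵐ y ∂μ, f'' (val y) ≠ 0 → Tendsto (fun N : ℕ => (∑ n ∈ Finset.range N,
      a n * (e (H * (b : ℝ) ^ n * f (val y)) * G (blk n r y))) / N) atTop (𝓝 0) := by
  have hst : MeasurePreserving (sh 1) μ μ := h.erg.toMeasurePreserving
  have hval : ∀ y : Sq b, val y ∈ Set.Icc (0 : ℝ) 1 := fun y => ⟨val_nonneg y, val_le_one hb y⟩
  have hcf : ContinuousOn f (Set.Icc 0 1) := fun t ht => (hf t ht).continuousWithinAt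
  have hcf' : ContinuousOn f' (Set.Icc 0 1) := fun t ht => (hf' t ht).continuousWithinAt
  obtain ⟨C1, hC1⟩ := isCompact_Icc.exists_bound_of_continuousOn hcf'
  obtain ⟨C2, hC2⟩ := isCompact_Icc.exists_bound_of_continuousOn hf''
  simp only [Real.norm_eq_abs] at hC1 hC2
  set C : ℝ := max C1 C2 with hC
  have h0m : (0 : ℝ) ∈ Set.Icc (0 : ℝ) 1 := ⟨le_rfl, zero_le_one⟩
  have hC0 : 0 ≤ C := (abs_nonneg _).trans ((hC1 0 h0m).trans (le_max_left _ _))
  have hH0 : (H : ℝ) ≠ 0 := by exact_mod_cast hH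
  -- the averages are bounded
  have hn : ∀ᵐ y ∂μ, ∀ L : ℕ, ∀ δ : ℝ, 0 < δ → ∀ᶠ N : ℕ in atTop,
      ‖(∑ n ∈ Finset.range N, a n * (e (H * (b : ℝ) ^ n * f (val y)) * G (blk n r y))) / N‖ ≤
        Ps μ (H * f' (val y)) r G L + δ := by
    rw [ae_all_iff]
    intro L
    have h1 := nlb hb (fun f f' hf hf' C hC hT H r G hG L n hn X δ hδ =>
        freeze hb hst f f' hf hf' C hC hT H r G hG L n hn X δ hδ) h.erg (fun t => f (clamp t)) (fun t => f' (clamp t)) (comp_clamp hcf)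
      (comp_clamp hcf') C hC0
      (fun s hs t ht => by
        rw [clamp_of_mem hs, clamp_of_mem ht]
        exact (taylor hf hf' hC2 s hs t ht).trans
          (mul_le_mul_of_nonneg_right (le_max_right _ _) (sq_nonneg _)))
      (fun s hs t ht => by
        rw [clamp_of_mem hs, clamp_of_mem ht]
        exact (lip_of_deriv (convex_Icc 0 1) hf hC1 s hs t ht).trans
          (mul_le_mul_of_nonneg_right (le_max_left _ _) (abs_nonneg _)))
      (fun s hs t ht => by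
        rw [clamp_of_mem hs, clamp_of_mem ht]
        exact (lip_of_deriv (convex_Icc 0 1) hf' hC2 s hs t ht).trans
          (mul_le_mul_of_nonneg_right (le_max_right _ _) (abs_nonneg _)))
      (H : ℝ) r G hG a ha L
    simp only [clamp_of_mem (hval _)] at h1
    exact h1
  -- the exceptional set
  have null := fun I g c₀ hc₀ hg T hT q hq hq1 => null_of hb h
    (fun X q hq hq1 a₀ ha₀ ha C₀ hC₀ η hη => near_of_not_zero hb h X q hq hq1 a₀ ha₀ ha C₀ hC₀ η hη)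
    (nullw (posd h) (fun κ α hκ hκ1 hα p hp hp1 hpc n w =>
      word_bound hst κ α hκ hκ1 hα p hp hp1 hpc n w))
    (fun I g c₀ hc₀ hg => int_words hb I g c₀ hc₀ hg) I g c₀ hc₀ hg T hT q hq hq1
  choose q hq hq1 hqP using fun X : ℝ => ps_Qf hb hst X r G hG
  have hnull : ∀ᵐ y ∂μ, ∀ s t : ℚ, (∃ c : ℝ, 0 < c ∧
      ∀ u ∈ Set.Icc (s : ℝ) t ∩ Set.Icc 0 1, c ≤ |f'' u|) →
      val y ∈ Set.Icc (s : ℝ) t ∩ Set.Icc 0 1 → Tendsto (fun l : ℕ =>
      ∫ z, ‖Qf μ (H * f' (val y)) (q (H * f' (val y))) l z‖ ^ 2 ∂μ) atTop (𝓝 0) := by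
    rw [ae_all_iff]
    intro s
    rw [ae_all_iff]
    intro t
    by_cases hc : ∃ c : ℝ, 0 < c ∧ ∀ u ∈ Set.Icc (s : ℝ) t ∩ Set.Icc 0 1, c ≤ |f'' u|
    · obtain ⟨c, hc0, hc⟩ := hc
      have h1 := null (Set.Icc (s : ℝ) t ∩ Set.Icc 0 1) (fun u => (H : ℝ) * f' u)
        (|(H : ℝ)| * c) (by positivity) (fun u hu v hv => by
          rw [← mul_sub, abs_mul, mul_assoc]
          exact mul_le_mul_of_nonneg_left (lower_of_deriv hf' hc u hu v hv) (abs_nonneg _))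
        (|(H : ℝ)| * C) (fun u hu => by
          rw [abs_mul]
          exact mul_le_mul_of_nonneg_left ((hC1 u hu.2).trans (le_max_left _ _)) (abs_nonneg _))
        q hq hq1
      have h2 := measure_eq_zero_iff_ae_notMem.1 h1
      filter_upwards [h2] with y hy _ hyI
      by_contra hcon
      exact hy ⟨hyI, hcon⟩
    · exact Eventually.of_forall fun y h1 => absurd h1 hc
  filter_upwards [hn, hnull] with y hy1 hy2 hy3
  -- an interval
  have hy2' : Tendsto (fun l : ℕ =>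
      ∫ z, ‖Qf μ (H * f' (val y)) (q (H * f' (val y))) l z‖ ^ 2 ∂μ) atTop (𝓝 0) := by
    have hpos : 0 < |f'' (val y)| / 2 := by positivity
    obtain ⟨ε, hε, hε'⟩ := Metric.continuousWithinAt_iff.1 (hf'' (val y) (hval y)) _ hpos
    obtain ⟨s, hs1, hs2⟩ := exists_rat_btwn (show val y - ε < val y by linarith)
    obtain ⟨t, ht1, ht2⟩ := exists_rat_btwn (show val y < val y + ε by linarith)
    refine hy2 s t ⟨_, hpos, fun u hu => ?_⟩ ⟨⟨hs2.le, ht1.le⟩, hval y⟩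
    have h1 := hε' hu.2 (by
      rw [Real.dist_eq, abs_lt]
      constructor
      · linarith [hu.1.1]
      · linarith [hu.1.2])
    rw [Real.dist_eq] at h1
    have h2 := abs_sub_abs_le_abs_sub (f'' (val y)) (f'' u)
    rw [abs_sub_comm] at h2
    linarith
  have hPs : Tendsto (fun L : ℕ => Ps μ (H * f' (val y)) r G L) atTop (𝓝 0) := by
    have h1 : ∀ L : ℕ, Ps μ (H * f' (val y)) r G L ≤
        √(∫ z, ‖Qf μ (H * f' (val y)) (q (H * f' (val y))) L z‖ ^ 2 ∂μ) := by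
      intro L
      rw [hqP]
      have h2 := int_abs_le_sqrt (μ := μ)
        (fun z => ‖Qf μ (H * f' (val y)) (q (H * f' (val y))) L z‖)
        (Qf_meas' μ _ _ L).norm.aestronglyMeasurable (Qf_sq_int _ _ (hq1 _) L)
      simp only [abs_norm] at h2
      exact h2
    have h2 : ∀ L : ℕ, 0 ≤ Ps μ (H * f' (val y)) r G L := fun L =>
      integral_nonneg fun z => norm_nonneg _
    refine squeeze_zero h2 h1 ?_
    rw [← Real.sqrt_zero]
    exact (Real.continuous_sqrt.tendsto 0).comp hy2'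
  rw [Metric.tendsto_atTop]
  intro δ hδ
  obtain ⟨L, hL⟩ := (hPs.eventually (gt_mem_nhds (show (0 : ℝ) < δ / 3 by positivity))).exists
  obtain ⟨N0, hN0⟩ := eventually_atTop.1 (hy1 L (δ / 3) (by positivity))
  refine ⟨N0, fun N hN => ?_⟩
  rw [dist_zero_right]
  have := hN0 N hN
  linarith

end Pool.Agent.Helper5.NE
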