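import Pool.Agent.Helper5.KM.Basic

/-! Definitions for the nonlinear theorem: smooth images of digit processes of positive entropy
are normal (swarm NE). -/

open MeasureTheory Filter Topology

namespace Pool.Agent.Helper5.NE

open Pool.Agent.Helper5.KM

/-- an ergodic stationary process of base `b` digits whose present is not determined by its past
(that is, of positive entropy) -/
structure EProc (b : ℕ) (μ : Measure (Sq b)) : Prop where
  erg : Ergodic (sh 1) μ
  pos : ∃ d : Fin b, ∀ A : Set (Sq b), MeasurableSet[past b 0] A → ¬ (A =ᵐ[μ] {y | y 0 = d})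

/-- for some `0 < D < b ^ K'` the number `b ^ (l + j) X D` is nearly an integer for all places
`j` of a set `J ⊆ [L, K)` such that all but `η K` places `t` of `[L, K)` satisfy
`j ≤ t < j + R` for some `j ∈ J` -/
def Near (b l L R K K' : ℕ) (η X : ℝ) : Prop :=
  ∃ D : ℕ, 0 < D ∧ D < b ^ K' ∧ ∃ J : Finset ℕ, J ⊆ Finset.Ico L K ∧
    (((Finset.Ico L K).filter fun t => ∀ j ∈ J, ¬ (j ≤ t ∧ t < j + R)).card : ℝ) ≤ η * K ∧
    ∀ j ∈ J, |(b : ℝ) ^ (l + j) * X * D - round ((b : ℝ) ^ (l + j) * X * D)| ≤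
      1 / (b : ℝ) ^ (R + 2)

/-- mean size of `E[e(b^L X val) G(y_L … y_{L+r-1}) | past]` -/
noncomputable def Ps {b : ℕ} (μ : Measure (Sq b)) (X : ℝ) (r : ℕ) (G : (Fin r → Fin b) → ℂ)
    (L : ℕ) : ℝ :=
  ∫ z, ‖(μ[fun y => e ((b : ℝ) ^ L * X * val y) * G (blk L r y) | past b 0]) z‖ ∂μ

end Pool.Agent.Helper5.NE
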