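import Pool.Agent.Helper5.NE.Aes
import Pool.Agent.Helper5.KM.Main

/-! Assembly of swarm NE. -/

open MeasureTheory Filter Topology

namespace Pool.Agent.Helper5.NE

open Pool.Agent.Helper5.KM

variable {b : ℕ}

theorem joint (hb : 2 ≤ b) {μ : Measure (Sq b)} [IsProbabilityMeasure μ] (h : EProc b μ)
    (f f' f'' : ℝ → ℝ) (hf : ∀ t ∈ Set.Icc (0 : ℝ) 1, HasDerivWithinAt f (f' t) (Set.Icc 0 1) t)
    (hf' : ∀ t ∈ Set.Icc (0 : ℝ) 1, HasDerivWithinAt f' (f'' t) (Set.Icc 0 1) t)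
    (hf'' : ContinuousOn f'' (Set.Icc (0 : ℝ) 1)) (S : Set ℕ) :
    ∀ᵐ y ∂μ, f'' (val y) ≠ 0 → ∀ (j k : ℕ) (u : Fin j → Fin b) (w : Fin k → Fin b),
      Tendsto (fun N : ℕ =>
        ((({n : ℕ | n < N ∧ n ∈ S ∧ (∀ i : Fin j, y ((n + (i : ℕ) : ℕ) : ℤ) = u i) ∧
            Occ w (f (val y)) n}.ncard : ℕ) : ℝ) -
          (({n : ℕ | n < N ∧ n ∈ S ∧ (∀ i : Fin j, y ((n + (i : ℕ) : ℕ) : ℤ) = u i)}.ncard : ℕ) : ℝ)
            / (b : ℝ) ^ k) / N) atTop (𝓝 0) := by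
  classical
  have hae : ∀ᵐ y ∂μ, ∀ (m : ℤ), m ≠ 0 → ∀ (j : ℕ) (u : Fin j → Fin b), f'' (val y) ≠ 0 →
      Tendsto (fun N : ℕ => (∑ n ∈ Finset.range N,
        (if n ∈ S then 1 else 0) * (e (m * (b : ℝ) ^ n * f (val y)) *
          (if blk n j y = u then 1 else 0))) / N) atTop (𝓝 (0 : ℂ)) := by
    rw [ae_all_iff]
    intro m
    rw [ae_all_iff]
    intro hm
    rw [ae_all_iff]
    intro j
    rw [ae_all_iff]
    intro u
    refine ae_sums hb h f f' f'' hf hf' hf'' m hm j (fun v => if v = u then 1 else 0)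
      (fun v => ?_) (fun n => if n ∈ S then 1 else 0) (fun n => ?_)
    · split_ifs <;> simp
    · split_ifs <;> simp
  filter_upwards [hae] with y hy hy0 j k u w
  obtain ⟨α, hα, hα1, hocc⟩ := occ_iff hb w
  set z : ℝ := f (val y) with hz
  set g : ℕ → ℝ := fun n => if n ∈ S ∧ blk n j y = u then 1 else 0 with hg
  have hg0 : ∀ n, 0 ≤ g n := fun n => by simp only [hg]; split_ifs <;> norm_num
  have hg1 : ∀ n, g n ≤ 1 := fun n => by simp only [hg]; split_ifs <;> norm_num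
  have hbk : (0 : ℝ) < 1 / (b : ℝ) ^ k := by
    have : (0 : ℝ) < b := by exact_mod_cast (by omega : 0 < b)
    positivity
  have hw := wweyl_interval hg0 hg1 (fun n => z * (b : ℝ) ^ n) (fun m hm => by
    refine (hy m hm j u hy0).congr fun N => ?_
    congr 1
    refine Finset.sum_congr rfl fun n _ => ?_
    have e1 : (m : ℝ) * (z * (b : ℝ) ^ n) = m * (b : ℝ) ^ n * z := by ring
    rw [e1]
    simp only [hg]
    by_cases h1 : n ∈ S <;> by_cases h2 : blk n j y = u <;> simp [h1, h2]) α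
    (α + 1 / (b : ℝ) ^ k) hα (by linarith) hα1
  refine hw.congr fun N => ?_
  congr 1
  have hblk : ∀ n : ℕ, blk n j y = u ↔ ∀ i : Fin j, y ((n + (i : ℕ) : ℕ) : ℤ) = u i := by
    intro n
    constructor
    · intro h i
      have := congrFun h i
      rw [← this]
      unfold blk
      push_cast
      rfl
    · intro h
      funext i
      rw [← h i]
      unfold blk
      push_cast
      rfl
  have e2 : {n : ℕ | n < N ∧ n ∈ S ∧ (∀ i : Fin j, y ((n + (i : ℕ) : ℕ) : ℤ) = u i) ∧ Occ w z n} =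
      ((Finset.range N).filter (fun n => (n ∈ S ∧ blk n j y = u) ∧ Occ w z n) : Finset ℕ) := by
    ext n
    simp only [Set.mem_ofPred_eq, Finset.coe_filter, Finset.mem_range, hblk n]
    tauto
  have e3 : {n : ℕ | n < N ∧ n ∈ S ∧ (∀ i : Fin j, y ((n + (i : ℕ) : ℕ) : ℤ) = u i)} =
      ((Finset.range N).filter (fun n => n ∈ S ∧ blk n j y = u) : Finset ℕ) := by
    ext n
    simp only [Set.mem_ofPred_eq, Finset.coe_filter, Finset.mem_range, hblk n]
  rw [e2, e3, Set.ncard_coe_finset, Set.ncard_coe_finset, Finset.card_filter, Finset.card_filter]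
  push_cast
  rw [Finset.sum_div, ← Finset.sum_sub_distrib]
  refine Finset.sum_congr rfl fun n _ => ?_
  simp only [hg, hocc z n]
  by_cases h1 : n ∈ S ∧ blk n j y = u
  · by_cases h2 : α ≤ Int.fract (z * (b : ℝ) ^ n) ∧ Int.fract (z * (b : ℝ) ^ n) < α + 1 / (b : ℝ) ^ k
    · rw [if_pos h1, if_pos h2, if_pos ⟨h1, h2⟩]; ring
    · rw [if_pos h1, if_neg h2, if_neg (fun h => h2 h.2)]; ring
  · have h3 : ¬ ((n ∈ S ∧ blk n j y = u) ∧ α ≤ Int.fract (z * (b : ℝ) ^ n) ∧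
        Int.fract (z * (b : ℝ) ^ n) < α + 1 / (b : ℝ) ^ k) := fun h => h1 h.1
    rw [if_neg h1, if_neg h3]; ring

/-- the root: `√(x + c t)` -/
theorem root_derivs {x c : ℝ} (hx : 0 < x) (hc : 0 ≤ c) :
    (∀ t ∈ Set.Icc (0 : ℝ) 1, HasDerivWithinAt (fun t => √(x + c * t))
      (c / 2 * (√(x + c * t))⁻¹) (Set.Icc 0 1) t) ∧
    (∀ t ∈ Set.Icc (0 : ℝ) 1, HasDerivWithinAt (fun t => c / 2 * (√(x + c * t))⁻¹)
      (c / 2 * (-(c / (2 * √(x + c * t))) / (√(x + c * t)) ^ 2)) (Set.Icc 0 1) t) := by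
  have key : ∀ t ∈ Set.Icc (0 : ℝ) 1, 0 < x + c * t := fun t ht => by
    have := mul_nonneg hc ht.1
    linarith
  have h1 : ∀ t ∈ Set.Icc (0 : ℝ) 1, HasDerivAt (fun t => √(x + c * t))
      (c / (2 * √(x + c * t))) t := by
    intro t ht
    have h2 : HasDerivAt (fun t : ℝ => x + c * t) c t := by
      simpa using ((hasDerivAt_id t).const_mul c).const_add x
    exact h2.sqrt (key t ht).ne'
  constructor
  · intro t ht
    have h4 := (h1 t ht).hasDerivWithinAt (s := Set.Icc (0 : ℝ) 1)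
    have h5 : c / 2 * (√(x + c * t))⁻¹ = c / (2 * √(x + c * t)) := by ring
    rw [h5]
    exact h4
  · intro t ht
    have h3 := ((h1 t ht).fun_inv (Real.sqrt_pos.2 (key t ht)).ne').const_mul (c / 2)
    exact h3.hasDerivWithinAt

end Pool.Agent.Helper5.NE
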