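import Pool.Agent.Helper5.NE.Defs
import Pool.Agent.Helper5.KM.Zero

/-! Part UNIM of swarm NE: a unimodular cocycle on a set of the remote past. -/

open MeasureTheory Filter Topology

namespace Pool.Agent.Helper5.NE

open Pool.Agent.Helper5.KM
open Pool.Agent.Helper44.KM (pyth int_abs_le_sqrt Qf_sq_int sm_of_past Qf_int Qf_norm_le)

variable {b : ℕ}

theorem nrm_diff2 {r v : ℝ} (hr : 0 < r) (hv : r ≤ v) (a z c : ℂ) (ha : ‖a‖ = 1) :
    ‖a * nrm z - nrm c‖ ≤ 2 / r * (‖a * z - c‖ + |‖c‖ - v|) := by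
  have hv0 : 0 < v := lt_of_lt_of_le hr hv
  have h1 := nrm_diff hv0 a z c ha
  have h2 : |‖z‖ - v| ≤ ‖a * z - c‖ + |‖c‖ - v| := by
    have h3 : ‖z‖ - v = (‖a * z‖ - ‖c‖) + (‖c‖ - v) := by
      rw [norm_mul, ha, one_mul]; ring
    rw [h3]
    exact (abs_add_le _ _).trans (add_le_add_left (abs_norm_sub_norm_le _ _) _)
  refine h1.trans ?_
  have h4 : 0 ≤ ‖a * z - c‖ + |‖c‖ - v| := by positivity
  calc (|‖z‖ - v| + ‖a * z - c‖ + |‖c‖ - v|) / v ≤ (2 * (‖a * z - c‖ + |‖c‖ - v|)) / v := by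
        gcongr; linarith
    _ ≤ (2 * (‖a * z - c‖ + |‖c‖ - v|)) / r := by gcongr
    _ = _ := by ring

theorem unim {μ : Measure (Sq b)} [IsProbabilityMeasure μ] (h : MeasurePreserving (sh 1) μ μ)
    (X : ℝ) (q : Sq b → ℂ) (hq : StronglyMeasurable[past b 0] q) (hq1 : ∀ y, ‖q y‖ ≤ 1)
    (hw : ∃ w : Sq b → ℝ, (∀ n : ℕ, Measurable[past b (-(n : ℤ))] w) ∧
      (∀ y, 0 ≤ w y ∧ w y ≤ 1) ∧
      Tendsto (fun l : ℕ => ∫ y, |‖Qf μ X q l (sh (-(l : ℤ)) y)‖ - w y| ∂μ) atTop (𝓝 0))
    (a₀ : ℝ) (ha₀ : 0 < a₀) (ha : ∀ l, a₀ ≤ ∫ y, ‖Qf μ X q l y‖ ^ 2 ∂μ) :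
    ∃ A : Set (Sq b), (∀ n : ℕ, MeasurableSet[past b (-(n : ℤ))] A) ∧ μ A ≠ 0 ∧
      ∀ ε : ℝ, 0 < ε → ∃ (l : ℕ) (U : ℕ → Sq b → ℂ),
        (∀ k, StronglyMeasurable[past b 0] (U k)) ∧ (∀ k y, ‖U k y‖ = 1) ∧
        ∀ j k : ℕ, ∫ y in {y | sh ((l + j + k : ℕ) : ℤ) y ∈ A},
          ‖e ((b : ℝ) ^ (l + j) * X * Bk k y) * U j (sh k y) - U (j + k) y‖ ∂μ ≤ ε := by
  obtain ⟨w, hwm, hwb, hwt⟩ := hw
  set a : ℕ → ℝ := fun l => ∫ y, ‖Qf μ X q l y‖ ^ 2 ∂μ with hadef
  have hanti : Antitone a := by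
    intro l m hlm
    obtain ⟨k, rfl⟩ := Nat.exists_eq_add_of_le hlm
    have h1 := pyth h X q hq hq1 l k
    have h2 : 0 ≤ ∫ y, ‖e ((b : ℝ) ^ l * X * Bk k y) * Qf μ X q l (sh k y) -
        Qf μ X q (l + k) y‖ ^ 2 ∂μ := integral_nonneg fun y => by positivity
    rw [h1] at h2
    simp only [hadef]; linarith
  obtain ⟨A', hA'⟩ : ∃ A, Tendsto a atTop (𝓝 A) :=
    ⟨_, tendsto_atTop_ciInf hanti ⟨0, by rintro _ ⟨l, rfl⟩; exact ha₀.le.trans (ha l)⟩⟩
  have hAle : ∀ l, A' ≤ a l := fun l => hanti.le_of_tendsto hA' l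
  have hwm' : Measurable w := (hwm 0).mono (past_le _) le_rfl
  have hwi : Integrable w μ := integrable_of_bdd hwm' 1 fun y => by
    rw [abs_of_nonneg (hwb y).1]; exact (hwb y).2
  have hwi2 : Integrable (fun y => w y ^ 2) μ := integrable_of_bdd (hwm'.pow_const 2) 1 fun y => by
    rw [abs_of_nonneg (sq_nonneg _)]
    exact pow_le_one₀ (hwb y).1 (hwb y).2
  -- the shifted moduli
  set u : ℕ → Sq b → ℝ := fun l y => ‖Qf μ X q l (sh (-(l : ℤ)) y)‖ with hu
  have hum : ∀ l, Measurable (u l) := fun l => ((Qf_meas' μ X q l).comp (measurable_sh _)).norm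
  have hub : ∀ l : ℕ, ∀ᵐ y ∂μ, u l y ≤ 1 := by
    intro l
    exact (mp_sh h (-(l : ℤ))).quasiMeasurePreserving.ae (Qf_norm_le X q hq1 l (μ := μ))
  have hu0 : ∀ l y, 0 ≤ u l y := fun l y => norm_nonneg _
  have hui : ∀ l, Integrable (u l) μ := fun l => Integrable.of_bound (hum l).aestronglyMeasurable 1 (by
    filter_upwards [hub l] with y hy
    rw [Real.norm_eq_abs, abs_of_nonneg (hu0 l y)]; exact hy)
  have hui2 : ∀ l, Integrable (fun y => u l y ^ 2) μ := fun l =>
    Integrable.of_bound ((hum l).pow_const 2).aestronglyMeasurable 1 (by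
      filter_upwards [hub l] with y hy
      rw [Real.norm_eq_abs, abs_of_nonneg (sq_nonneg _)]
      exact pow_le_one₀ (hu0 l y) hy)
  have hua : ∀ l, ∫ y, u l y ^ 2 ∂μ = a l := fun l =>
    (mp_sh h (-(l : ℤ))).integral_comp (shEquiv (b := b) _).measurableEmbedding
      (fun y => ‖Qf μ X q l y‖ ^ 2)
  have hdi : ∀ l, Integrable (fun y => |u l y - w y|) μ := fun l => ((hui l).sub hwi).abs
  have hw2 : a₀ ≤ ∫ y, w y ^ 2 ∂μ := by
    have h1 : ∀ l, a₀ ≤ ∫ y, w y ^ 2 ∂μ + 2 * ∫ y, |u l y - w y| ∂μ := by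
      intro l
      rw [← integral_const_mul, ← integral_add hwi2 ((hdi l).const_mul 2)]
      refine (ha l).trans ?_
      rw [show (∫ y, ‖Qf μ X q l y‖ ^ 2 ∂μ) = ∫ y, u l y ^ 2 ∂μ from (hua l).symm]
      refine integral_mono_ae (hui2 l) (hwi2.add ((hdi l).const_mul 2)) ?_
      filter_upwards [hub l] with y hy
      have h2 := le_abs_self (u l y - w y)
      have h3 := abs_nonneg (u l y - w y)
      have h4 := hu0 l y
      have h5 := hwb y
      nlinarith
    have h2 : Tendsto (fun l : ℕ => ∫ y, w y ^ 2 ∂μ + 2 * ∫ y, |u l y - w y| ∂μ) atTop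
        (𝓝 (∫ y, w y ^ 2 ∂μ + 2 * 0)) := (hwt.const_mul 2).const_add _
    rw [mul_zero, add_zero] at h2
    exact ge_of_tendsto' h2 h1
  set r : ℝ := √(a₀ / 2) with hr
  have hr0 : 0 < r := Real.sqrt_pos.2 (by positivity)
  have hr2 : r ^ 2 = a₀ / 2 := Real.sq_sqrt (by positivity)
  set A : Set (Sq b) := {y | r ≤ w y} with hAdef
  have hAm : ∀ n : ℕ, MeasurableSet[past b (-(n : ℤ))] A := fun n =>
    (hwm n) measurableSet_Ici
  have hAm' : MeasurableSet A := past_le _ _ (hAm 0)
  refine ⟨A, hAm, ?_, ?_⟩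
  · intro h0
    have h1 : ∫ y, w y ^ 2 ∂μ ≤ ∫ y, (r ^ 2 + A.indicator (fun _ => (1 : ℝ)) y) ∂μ := by
      refine integral_mono hwi2 ((integrable_const _).add
        ((integrable_const _).indicator hAm')) fun y => ?_
      simp only
      by_cases hy : y ∈ A
      · rw [Set.indicator_of_mem hy]
        have : w y ^ 2 ≤ 1 := pow_le_one₀ (hwb y).1 (hwb y).2
        nlinarith [sq_nonneg r]
      · rw [Set.indicator_of_notMem hy, add_zero]
        have hy' : w y < r := not_le.1 hy
        exact pow_le_pow_left₀ (hwb y).1 hy'.le 2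
    rw [integral_add (integrable_const _) ((integrable_const _).indicator hAm'),
      integral_indicator_const _ hAm', integral_const, measureReal_def μ A, h0] at h1
    simp only [probReal_univ, smul_eq_mul, one_mul, ENNReal.toReal_zero, zero_mul, add_zero] at h1
    rw [hr2] at h1
    linarith
  · intro ε hε
    have he0 : 0 < ε * r / 8 := by positivity
    have e1 : ∀ᶠ l in atTop, √(a l - A') < ε * r / 8 := by
      have h1 : Tendsto (fun l => √(a l - A')) atTop (𝓝 (√(A' - A'))) :=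
        (Real.continuous_sqrt.tendsto _).comp (hA'.sub_const A')
      rw [sub_self, Real.sqrt_zero] at h1
      exact h1.eventually (gt_mem_nhds he0)
    have e2 : ∀ᶠ l in atTop, ∀ m ≥ l, ∫ y, |u m y - w y| ∂μ < ε * r / 8 := by
      obtain ⟨l0, hl0⟩ := eventually_atTop.1 (hwt.eventually (gt_mem_nhds he0))
      filter_upwards [eventually_ge_atTop l0] with l hl m hm
      exact hl0 m (hl.trans hm)
    obtain ⟨l, hl1, hl2⟩ := (e1.and e2).exists
    refine ⟨l, fun j y => nrm (Qf μ X q (l + j) y), fun j => ?_, fun j y => norm_nrm _, ?_⟩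
    · exact (measurable_nrm.comp (Qf_meas μ X q (l + j)).measurable).stronglyMeasurable
    · intro j k
      set B : Set (Sq b) := {y | sh ((l + j + k : ℕ) : ℤ) y ∈ A} with hB
      have hBm : MeasurableSet B := measurable_sh _ hAm'
      set F : Sq b → ℂ := fun y => e ((b : ℝ) ^ (l + j) * X * Bk k y) * Qf μ X q (l + j) (sh k y) -
        Qf μ X q (l + j + k) y with hF
      have hFm : Measurable F := by
        have h1 : Measurable (fun y : Sq b => e ((b : ℝ) ^ (l + j) * X * Bk k y)) :=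
          measurable_e.comp (((measurable_Bk k).mono (past_le _) le_rfl).const_mul _)
        exact (h1.mul ((Qf_meas' μ X q (l + j)).comp (measurable_sh _))).sub
          (Qf_meas' μ X q (l + j + k))
      have hFb : ∀ᵐ y ∂μ, ‖F y‖ ≤ 2 := by
        have h1 : ∀ᵐ y ∂μ, ‖Qf μ X q (l + j) (sh k y)‖ ≤ 1 :=
          (mp_sh h (k : ℤ)).quasiMeasurePreserving.ae (Qf_norm_le X q hq1 (l + j))
        filter_upwards [h1, Qf_norm_le X q hq1 (l + j + k) (μ := μ)] with y hy hy2
        simp only [hF]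
        refine (norm_sub_le _ _).trans ?_
        rw [norm_mul, norm_e, one_mul]; linarith
      have hFi : Integrable (fun y => ‖F y‖) μ :=
        Integrable.of_bound hFm.norm.aestronglyMeasurable 2 (by simpa using hFb)
      have hFi2 : Integrable (fun y => ‖F y‖ ^ 2) μ := by
        refine Integrable.of_bound (hFm.norm.pow_const 2).aestronglyMeasurable 4 ?_
        filter_upwards [hFb] with y hy
        rw [norm_pow, norm_norm]
        nlinarith [norm_nonneg (F y)]
      set E : Sq b → ℝ := fun y => |‖Qf μ X q (l + j + k) y‖ - w (sh ((l + j + k : ℕ) : ℤ) y)|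
        with hE
      have hEi : Integrable E μ := by
        refine Integrable.abs (Integrable.sub ?_ ?_)
        · exact (Qf_int μ X q (l + j + k)).norm
        · exact (mp_sh h _).integrable_comp_of_integrable hwi
      have hF2 : ∫ y, ‖F y‖ ∂μ ≤ ε * r / 8 := by
        have h1 := int_abs_le_sqrt (μ := μ) (fun y => ‖F y‖) hFm.norm.aestronglyMeasurable hFi2
        simp only [abs_norm] at h1
        refine h1.trans ?_
        rw [hF, pyth h X q hq hq1 (l + j) k]
        refine le_trans (Real.sqrt_le_sqrt ?_) hl1.le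
        have h2 : a (l + j) ≤ a l := hanti (Nat.le_add_right _ _)
        have h3 := hAle (l + j + k)
        simp only [hadef] at h2 h3 ⊢
        linarith
      have hE2 : ∫ y, E y ∂μ ≤ ε * r / 8 := by
        have h1 := (mp_sh h ((l + j + k : ℕ) : ℤ)).integral_comp
          (shEquiv (b := b) _).measurableEmbedding (fun y => |u (l + j + k) y - w y|)
        have h2 : ∫ y, E y ∂μ = ∫ y, |u (l + j + k) y - w y| ∂μ := by
          rw [← h1]
          refine integral_congr_ae (Eventually.of_forall fun y => ?_)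
          simp only [hE, hu]
          rw [sh_sh, neg_add_cancel, sh_zero]
        rw [h2]
        exact (hl2 _ (by omega)).le
      have hnn : ∀ᵐ y ∂μ, 0 ≤ ‖F y‖ + E y := Eventually.of_forall fun y => by
        simp only [hE]; positivity
      calc ∫ y in B, ‖e ((b : ℝ) ^ (l + j) * X * Bk k y) * nrm (Qf μ X q (l + j) (sh k y)) -
            nrm (Qf μ X q (l + (j + k)) y)‖ ∂μ
          ≤ ∫ y in B, 2 / r * (‖F y‖ + E y) ∂μ := by
            refine setIntegral_mono_on₀ ?_ ?_ hBm.nullMeasurableSet ?_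
            · refine (integrable_of_bdd ?_ 2 fun y => ?_).integrableOn
              · refine Measurable.norm (Measurable.sub (Measurable.mul ?_ ?_) ?_)
                · exact measurable_e.comp (((measurable_Bk k).mono (past_le _) le_rfl).const_mul _)
                · exact measurable_nrm.comp ((Qf_meas' μ X q (l + j)).comp (measurable_sh _))
                · exact measurable_nrm.comp (Qf_meas' μ X q (l + (j + k)))
              · rw [abs_norm]
                refine (norm_sub_le _ _).trans ?_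
                rw [norm_mul, norm_e, norm_nrm, norm_nrm]; norm_num
            · exact ((hFi.add hEi).const_mul _).integrableOn
            · intro y hy
              simp only [hF, hE]
              rw [← add_assoc]
              exact nrm_diff2 hr0 hy _ _ _ (norm_e _)
        _ ≤ ∫ y, 2 / r * (‖F y‖ + E y) ∂μ := by
            refine setIntegral_le_integral ((hFi.add hEi).const_mul _) ?_
            filter_upwards [hnn] with y hy
            exact mul_nonneg (by positivity) hy
        _ = 2 / r * (∫ y, ‖F y‖ ∂μ + ∫ y, E y ∂μ) := by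
            rw [integral_const_mul, integral_add hFi hEi]
        _ ≤ 2 / r * (ε * r / 8 + ε * r / 8) := by gcongr
        _ = ε / 2 := by field_simp; ring
        _ ≤ ε := by linarith

end Pool.Agent.Helper5.NE
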