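import Pool.Agent.Helper5.NE.Small
import Pool.Agent.Helper5.NE.Unim
import Pool.Agent.Helper6.NE.WLIM
import Pool.Agent.Helper5.KM.Nog

/-! Part NEAR of swarm NE: if the conditional expectations do not tend to zero then `X` is
exceptional. -/

open MeasureTheory Filter Topology

namespace Pool.Agent.Helper5.NE

open Pool.Agent.Helper5.KM
open Pool.Agent.Helper49.KM (ent_small ent_pos subadd approx num_lt num_inj norm_e_sub_one_ge)
open Pool.Agent.Helper6.NE (wlim)

variable {b : ℕ}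

theorem measurableSet_sh_past {n k : ℕ} {A : Set (Sq b)}
    (hA : MeasurableSet[past b (-(n : ℤ))] A) (h : k ≤ n) :
    MeasurableSet[past b 0] {y : Sq b | sh (k : ℤ) y ∈ A} := by
  have h1 : MeasurableSet[past b (-(n : ℤ) + k)] {y : Sq b | sh (k : ℤ) y ∈ A} := by
    rw [← past_comap]
    exact ⟨A, hA, rfl⟩
  exact past_mono (by omega) _ h1

open scoped Classical in
/-- mean number of uncovered places -/
theorem unc_markov {μ : Measure (Sq b)} [IsProbabilityMeasure μ]
    (h : MeasurePreserving (sh 1) μ μ) (A : Set (Sq b)) (hA : MeasurableSet A) (R : ℕ) (η' : ℝ)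
    (hη' : μ.real {y : Sq b | ∀ i : ℕ, i < R → sh (-(i : ℤ)) y ∉ A} ≤ η') (s : ℕ)
    (T : Finset ℕ) (c : ℝ) (hc : 0 < c) :
    μ.real {y : Sq b | c < ((T.filter fun t => ∀ i : ℕ, i < R →
      sh (((s + t : ℕ) : ℤ) - i) y ∉ A).card : ℝ)} ≤ T.card * η' / c := by
  set B : Set (Sq b) := {y : Sq b | ∀ i : ℕ, i < R → sh (-(i : ℤ)) y ∉ A} with hB
  have hBm : MeasurableSet B := by
    have : B = ⋂ i : ℕ, ⋂ (_ : i < R), {y : Sq b | sh (-(i : ℤ)) y ∉ A} := by
      ext y; simp [hB]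
    rw [this]
    exact MeasurableSet.iInter fun i => MeasurableSet.iInter fun _ =>
      (measurable_sh _ hA).compl
  set N : Sq b → ℝ := fun y => ∑ t ∈ T, (sh ((s + t : ℕ) : ℤ) ⁻¹' B).indicator (fun _ => (1 : ℝ)) y
    with hN
  have hNeq : ∀ y, ((T.filter fun t => ∀ i : ℕ, i < R →
      sh (((s + t : ℕ) : ℤ) - i) y ∉ A).card : ℝ) = N y := by
    intro y
    rw [Finset.card_filter]
    push_cast
    refine Finset.sum_congr rfl fun t _ => ?_
    simp only [Set.indicator_apply, Set.mem_preimage, hB, Set.mem_ofPred_eq, sh_sh]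
    refine if_congr ?_ rfl rfl
    refine forall₂_congr fun i _ => ?_
    rw [show ((s : ℤ) + t - i) = -(i : ℤ) + ((s + t : ℕ) : ℤ) by push_cast; ring]
  have hint : ∀ t ∈ T, Integrable
      ((sh ((s + t : ℕ) : ℤ) ⁻¹' B).indicator (fun _ => (1 : ℝ))) μ := fun t _ =>
    (integrable_const _).indicator (measurable_sh _ hBm)
  have hNi : Integrable N μ := integrable_finsetSum _ hint
  have hNint : ∫ y, N y ∂μ ≤ T.card * η' := by
    rw [hN, integral_finsetSum _ hint]
    refine (Finset.sum_le_card_nsmul _ _ η' fun t _ => ?_).trans (by rw [nsmul_eq_mul])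
    rw [integral_indicator_const _ (measurable_sh _ hBm), smul_eq_mul, mul_one,
      (mp_sh h _).measureReal_preimage hBm.nullMeasurableSet]
    exact hη'
  have h1 := mul_meas_ge_le_integral_of_nonneg (μ := μ) (f := N)
    (Eventually.of_forall fun y => Finset.sum_nonneg fun t _ =>
      Set.indicator_nonneg (fun _ _ => zero_le_one) _) hNi c
  have h2 : μ.real {y : Sq b | c < ((T.filter fun t => ∀ i : ℕ, i < R →
      sh (((s + t : ℕ) : ℤ) - i) y ∉ A).card : ℝ)} ≤ μ.real {y | c ≤ N y} := by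
    refine measureReal_mono fun y hy => ?_
    simp only [Set.mem_ofPred_eq] at hy ⊢
    rw [← hNeq]
    exact hy.le
  refine h2.trans ?_
  rw [le_div_iff₀ hc, mul_comm]
  exact h1.trans hNint

theorem near_of_not_zero (hb : 2 ≤ b) {μ : Measure (Sq b)} [IsProbabilityMeasure μ]
    (h : EProc b μ) (X : ℝ) (q : Sq b → ℂ) (hq : StronglyMeasurable[past b 0] q)
    (hq1 : ∀ y, ‖q y‖ ≤ 1) (a₀ : ℝ) (ha₀ : 0 < a₀) (ha : ∀ l, a₀ ≤ ∫ y, ‖Qf μ X q l y‖ ^ 2 ∂μ)
    (C₀ : ℕ) (hC : 1 ≤ C₀) (η : ℝ) (hη : 0 < η) :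
    ∃ R l L K₀ : ℕ, ∀ K' ≥ K₀, Near b l L R (C₀ * K') K' η X := by
  classical
  have hst : MeasurePreserving (sh 1) μ μ := h.erg.toMeasurePreserving
  have hb0 : (0 : ℝ) < b := by exact_mod_cast (by omega : 0 < b)
  have hb1 : (1 : ℝ) < b := by exact_mod_cast (by omega : 1 < b)
  have hC0 : (0 : ℝ) < C₀ := by exact_mod_cast (by omega : 0 < C₀)
  obtain ⟨c0, hc0, hpos⟩ := ent_pos hst h.pos
  set H : ℕ → ℝ := fun n => ent μ (blk 0 n : Sq b → _) with hH
  have hs : ∀ m n, H (m + n) ≤ H m + H n := by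
    intro m n
    have := ent_det2 hst m 0 n 0 0 0 0 (fun k => k.elim0) (fun k => k.elim0)
      (fun k => k.elim0) (fun k => k.elim0) (fun y y' _ _ _ _ => funext fun i => i.elim0)
    simpa using this
  obtain ⟨hh, hhc, hlim, hinc⟩ := subadd H (fun n => ent_nonneg _) hs c0 hc0 hpos
  have hh0 : 0 < hh := lt_of_lt_of_le hc0 hhc
  obtain ⟨A, hA, hA0, hUall⟩ := unim hst X q hq hq1 (wlim hst X q hq hq1) a₀ ha₀ ha
  have hAm : MeasurableSet A := (past_le _) _ (hA 0)
  -- rarely used symbols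
  obtain ⟨p', hp', hsmall'⟩ := ent_small b (hh / 8) (by positivity)
  obtain ⟨R, hR⟩ := gap h.erg A hAm hA0 (η * p' / 4) (by positivity)
  have hR := hR R le_rfl
  set δ : ℝ := hh / (8 * C₀) with hδ
  have hδ0 : 0 < δ := by positivity
  set M : ℕ := 2 * b ^ (R + 2) with hMdef
  have hM : 0 < M := by positivity
  obtain ⟨p, hp, hsmall⟩ := ent_small M δ hδ0
  set τ : ℝ := 1 / (b : ℝ) ^ (R + 2) with hτ
  have hτ0 : 0 < τ := by positivity
  set ε : ℝ := p * τ / 8 with hε
  have hε0 : 0 < ε := by positivity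
  obtain ⟨l, U, hU, h1, hall⟩ := hUall ε hε0
  have hUm : ∀ k, Measurable (U k) := fun k => (hU k).measurable.mono (past_le 0) le_rfl
  obtain ⟨L, hL⟩ := approx (μ := μ) (U 0) (hU 0) (h1 0) ε hε0
  obtain ⟨g, hg1, hg⟩ := hL L le_rfl
  -- conditions on `K'`
  have hKt : Tendsto (fun K' : ℕ => C₀ * K') atTop atTop :=
    tendsto_atTop_mono (fun K' => Nat.le_mul_of_pos_left K' (by omega)) tendsto_id
  have hKtR : Tendsto (fun K' : ℕ => ((C₀ * K' : ℕ) : ℝ)) atTop atTop :=
    tendsto_natCast_atTop_atTop.comp hKt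
  have hev : ∀ᶠ K' : ℕ in atTop, (R : ℝ) ≤ η / 2 * ((C₀ * K' : ℕ) : ℝ) ∧
      H (C₀ * K') ≤ (hh + δ) * ((C₀ * K' : ℕ) : ℝ) ∧ 2 / hh < (K' : ℝ) ∧ 1 ≤ K' := by
    have e1 : ∀ᶠ K' : ℕ in atTop, (R : ℝ) ≤ η / 2 * ((C₀ * K' : ℕ) : ℝ) :=
      (hKtR.const_mul_atTop (by positivity)).eventually (eventually_ge_atTop _)
    have e2 : ∀ᶠ K' : ℕ in atTop, H (C₀ * K') ≤ (hh + δ) * ((C₀ * K' : ℕ) : ℝ) := by
      have h2 := (hlim.comp hKt).eventually (gt_mem_nhds (show hh < hh + δ by linarith))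
      filter_upwards [h2, eventually_ge_atTop 1] with K' hK' hK1
      have h3 : (0 : ℝ) < ((C₀ * K' : ℕ) : ℝ) := by
        have : 0 < C₀ * K' := Nat.mul_pos (by omega) (by omega)
        exact_mod_cast this
      simp only [Function.comp] at hK'
      rw [div_lt_iff₀ h3] at hK'
      exact hK'.le
    have e3 : ∀ᶠ K' : ℕ in atTop, 2 / hh < (K' : ℝ) :=
      tendsto_natCast_atTop_atTop.eventually (eventually_gt_atTop (2 / hh))
    filter_upwards [e1, e2, e3, eventually_ge_atTop 1] with K' a1 a2 a3 a4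
    exact ⟨a1, a2, a3, a4⟩
  obtain ⟨K₀, hK₀⟩ := eventually_atTop.1 hev
  refine ⟨R, l, L, K₀, fun K' hK' => ?_⟩
  obtain ⟨hK1, hK2, hK3, hK4⟩ := hK₀ K' hK'
  by_contra hnear
  set K : ℕ := C₀ * K' with hK
  have hKpos : 0 < K := Nat.mul_pos (by omega) (by omega)
  have hKR : (0 : ℝ) < K := by exact_mod_cast hKpos
  set εS : ℝ := min (p / 2) (p' / (2 * K)) with hεS
  have hεS0 : 0 < εS := by
    rw [hεS]; exact lt_min (by positivity) (by positivity)
  -- approximation of the other `U k` and of the sets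
  have happ : ∀ k : ℕ, ∃ n0 : ℕ, ∀ n ≥ n0, ∃ g : (Fin n → Fin b) → ℂ, (∀ w, ‖g w‖ = 1) ∧
      ∫ y, ‖U k y - g (blk (-(n : ℤ)) n y)‖ ∂μ ≤ ε := fun k => approx (U k) (hU k) (h1 k) ε hε0
  choose N0 hN0 using happ
  set 𝒜 : ℕ → Set (Sq b) := fun k => {y | sh ((l + k + K' : ℕ) : ℤ) y ∈ A} with h𝒜
  have h𝒜p : ∀ k, MeasurableSet[past b 0] (𝒜 k) := fun k =>
    measurableSet_sh_past (hA (l + k + K')) le_rfl
  have h𝒜m : ∀ k, MeasurableSet (𝒜 k) := fun k => (past_le _) _ (h𝒜p k)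
  choose N1 hN1 using fun k => set_approx (μ := μ) (𝒜 k) (h𝒜p k) εS hεS0
  obtain ⟨n, hn, hnH⟩ := hinc (K' + K) (max ((Finset.range (K + K')).sup N0)
    ((Finset.range K).sup N1)) 1 one_pos
  have hn0 : (Finset.range (K + K')).sup N0 ≤ n := (le_max_left _ _).trans hn
  have hn1 : (Finset.range K).sup N1 ≤ n := (le_max_right _ _).trans hn
  have hn'' : ∀ k, ∃ g : (Fin n → Fin b) → ℂ, (∀ w, ‖g w‖ = 1) ∧
      (k < K → ∫ y, ‖U (k + K') y - g (blk (-(n : ℤ)) n y)‖ ∂μ ≤ ε) := by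
    intro k
    by_cases hk : k < K
    · obtain ⟨g, h1, h2⟩ := hN0 (k + K') n
        ((Finset.le_sup (f := N0) (Finset.mem_range.2 (by omega))).trans hn0)
      exact ⟨g, h1, fun _ => h2⟩
    · exact ⟨fun _ => 1, fun _ => norm_one, fun h => absurd h hk⟩
  choose G hG1 hG using hn''
  have hs'' : ∀ k, ∃ S : Set (Fin n → Fin b),
      (k < K → μ.real (symmDiff (𝒜 k) {y | blk (-(n : ℤ)) n y ∈ S}) ≤ εS) := by
    intro k
    by_cases hk : k < K
    · obtain ⟨S, hS⟩ := hN1 k n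
        ((Finset.le_sup (f := N1) (Finset.mem_range.2 hk)).trans hn1)
      exact ⟨S, fun _ => hS⟩
    · exact ⟨∅, fun h => absurd h hk⟩
  choose S hS using hs''
  -- the predictions and the corrections
  set θ : ℕ → Sq b → ℝ := fun k y => (b : ℝ) ^ (l + k) * X * num (blk 0 K' y) with hθ
  set ρ : ℕ → Sq b → ℂ := fun k y => G k (blk (-(n : ℤ)) n y) *
    (starRingEnd ℂ) (e ((b : ℝ) ^ l * X * num (blk K' k y)) * g (blk (k + K' - L) L y)) with hρ
  have hfin : ∀ (β : Type) [MeasurableSpace β] (s : ℤ) (m : ℕ) (F : (Fin m → Fin b) → β),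
      Measurable (fun y : Sq b => F (blk s m y)) := fun β _ s m F =>
    (measurable_of_finite F).comp (measurable_blk s m)
  have hρm : ∀ k, Measurable (ρ k) := by
    intro k
    refine (hfin ℂ _ n (G k)).mul (Complex.continuous_conj.measurable.comp ?_)
    exact (hfin ℂ _ k (fun w => e ((b : ℝ) ^ l * X * num w))).mul (hfin ℂ _ L g)
  have hθm : ∀ k, Measurable (θ k) := fun k =>
    hfin ℝ _ K' (fun w => (b : ℝ) ^ (l + k) * X * num w)
  have hρ1 : ∀ k y, ‖ρ k y‖ = 1 := by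
    intro k y
    simp only [hρ]
    rw [norm_mul, hG1, one_mul, RCLike.norm_conj, norm_mul, norm_e, hg1, one_mul]
  have hint : ∀ f : Sq b → ℂ, Measurable f → (∀ y, ‖f y‖ ≤ 2) → Integrable (fun y => ‖f y‖) μ :=
    fun f hf hf2 => integrable_of_bdd hf.norm 2 (fun y => by rw [abs_norm]; exact hf2 y)
  have hsub2 : ∀ z w : ℂ, ‖z‖ = 1 → ‖w‖ = 1 → ‖z - w‖ ≤ 2 := fun z w hz hw =>
    (norm_sub_le z w).trans (by rw [hz, hw]; norm_num)
  have hset : ∀ (B : Set (Sq b)) (f : Sq b → ℂ), Measurable f → (∀ y, ‖f y‖ ≤ 2) →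
      ∫ y in B, ‖f y‖ ∂μ ≤ ∫ y, ‖f y‖ ∂μ := fun B f hf hf2 =>
    setIntegral_le_integral (hint f hf hf2) (Eventually.of_forall fun y => norm_nonneg _)
  have hest : ∀ k, L ≤ k → k < K → ∫ y in 𝒜 k, ‖e (θ k y) - ρ k y‖ ∂μ ≤ 4 * ε := by
    intro k hk1 hk2
    set A1 : Sq b → ℂ := fun y => g (blk (k + K' - L) L y) - U 0 (sh k (sh K' y)) with hA1
    set A2 : Sq b → ℂ := fun y => e ((b : ℝ) ^ l * X * num (blk K' k y)) * U 0 (sh k (sh K' y)) -
      U k (sh K' y) with hA2
    set A3 : Sq b → ℂ := fun y => e (θ k y) * U k (sh K' y) - U (k + K') y with hA3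
    set A4 : Sq b → ℂ := fun y => U (k + K') y - G k (blk (-(n : ℤ)) n y) with hA4
    have m1 : Measurable A1 := (hfin ℂ _ L g).sub
      ((hUm 0).comp ((measurable_sh _).comp (measurable_sh _)))
    have m2 : Measurable A2 := ((hfin ℂ _ k (fun w => e ((b : ℝ) ^ l * X * num w))).mul
      ((hUm 0).comp ((measurable_sh _).comp (measurable_sh _)))).sub
      ((hUm k).comp (measurable_sh _))
    have m3 : Measurable A3 := ((measurable_e.comp (hθm k)).mul
      ((hUm k).comp (measurable_sh _))).sub (hUm _)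
    have m4 : Measurable A4 := (hUm _).sub (hfin ℂ _ n (G k))
    have b1 : ∀ y, ‖A1 y‖ ≤ 2 := fun y => hsub2 _ _ (hg1 _) (h1 _ _)
    have b2 : ∀ y, ‖A2 y‖ ≤ 2 := fun y => hsub2 _ _ (by rw [norm_mul, norm_e, h1, one_mul]) (h1 _ _)
    have b3 : ∀ y, ‖A3 y‖ ≤ 2 := fun y => hsub2 _ _ (by rw [norm_mul, norm_e, h1, one_mul]) (h1 _ _)
    have b4 : ∀ y, ‖A4 y‖ ≤ 2 := fun y => hsub2 _ _ (h1 _ _) (hG1 _ _)
    have i1 : ∫ y in 𝒜 k, ‖A1 y‖ ∂μ ≤ ε := by
      refine (hset _ _ m1 b1).trans ?_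
      have e1 : ∫ y, ‖A1 y‖ ∂μ = ∫ y, ‖g (blk (-(L : ℤ)) L y) - U 0 y‖ ∂μ := by
        have e2 := (mp_sh hst ((k : ℤ) + K')).integral_comp
          (shEquiv (b := b) ((k : ℤ) + K')).measurableEmbedding
          (fun y => ‖g (blk (-(L : ℤ)) L y) - U 0 y‖)
        rw [← e2]
        refine integral_congr_ae (Eventually.of_forall fun y => ?_)
        simp only [hA1]
        rw [blk_sh, sh_sh]
        congr 3
        ring_nf
      rw [e1]
      simpa only [norm_sub_rev] using hg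
    have i2 : ∫ y in 𝒜 k, ‖A2 y‖ ∂μ ≤ ε := by
      have e2 := (mp_sh hst (K' : ℤ)).setIntegral_preimage_emb
          (shEquiv (b := b) (K' : ℤ)).measurableEmbedding
          (fun y => ‖e ((b : ℝ) ^ (l + 0) * X * Bk k y) * U 0 (sh k y) - U (0 + k) y‖)
          {y | sh ((l + 0 + k : ℕ) : ℤ) y ∈ A}
      have e3 : (sh (K' : ℤ)) ⁻¹' {y | sh ((l + 0 + k : ℕ) : ℤ) y ∈ A} = 𝒜 k := by
        ext y
        simp only [Set.mem_preimage, Set.mem_ofPred_eq, h𝒜, sh_sh]
        rw [show (((l + 0 + k : ℕ) : ℤ) + (K' : ℤ)) = ((l + k + K' : ℕ) : ℤ) by push_cast; ring]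
      rw [e3] at e2
      have e1 : ∫ y in 𝒜 k, ‖A2 y‖ ∂μ = ∫ y in {y | sh ((l + 0 + k : ℕ) : ℤ) y ∈ A},
          ‖e ((b : ℝ) ^ (l + 0) * X * Bk k y) * U 0 (sh k y) - U (0 + k) y‖ ∂μ := by
        rw [← e2]
        refine integral_congr_ae (Eventually.of_forall fun y => ?_)
        simp only [hA2]
        rw [Bk_eq_num, blk_sh, add_zero, zero_add, zero_add]
      rw [e1]
      exact hall 0 k
    have i3 : ∫ y in 𝒜 k, ‖A3 y‖ ∂μ ≤ ε := by
      have := hall k K'
      simp only [Bk_eq_num] at this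
      exact this
    have i4 : ∫ y in 𝒜 k, ‖A4 y‖ ∂μ ≤ ε := (hset _ _ m4 b4).trans (hG k hk2)
    have n1 := (hint _ m1 b1).integrableOn (s := 𝒜 k)
    have n2 := (hint _ m2 b2).integrableOn (s := 𝒜 k)
    have n3 := (hint _ m3 b3).integrableOn (s := 𝒜 k)
    have n4 := (hint _ m4 b4).integrableOn (s := 𝒜 k)
    have j1 : IntegrableOn (fun y => ‖A1 y‖ + ‖A2 y‖) (𝒜 k) μ := n1.add n2
    have j2 : IntegrableOn (fun y => ‖A1 y‖ + ‖A2 y‖ + ‖A3 y‖) (𝒜 k) μ := j1.add n3
    have j3 : IntegrableOn (fun y => ‖A1 y‖ + ‖A2 y‖ + ‖A3 y‖ + ‖A4 y‖) (𝒜 k) μ := j2.add n4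
    calc ∫ y in 𝒜 k, ‖e (θ k y) - ρ k y‖ ∂μ
        ≤ ∫ y in 𝒜 k, (‖A1 y‖ + ‖A2 y‖ + ‖A3 y‖ + ‖A4 y‖) ∂μ := by
          refine integral_mono (hint _ ((measurable_e.comp (hθm k)).sub (hρm k))
            (fun y => hsub2 _ _ (norm_e _) (hρ1 _ _))).integrableOn j3 (fun y => ?_)
          exact norm_four (norm_e _) (norm_e _) (hg1 _)
      _ = ∫ y in 𝒜 k, ‖A1 y‖ ∂μ + ∫ y in 𝒜 k, ‖A2 y‖ ∂μ + ∫ y in 𝒜 k, ‖A3 y‖ ∂μ +
          ∫ y in 𝒜 k, ‖A4 y‖ ∂μ := by
          rw [integral_add j2 n4, integral_add j1 n3, integral_add n1 n2]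
      _ ≤ 4 * ε := by linarith
  set V : Fin (K - L) → Sq b → Fin (M + 1) := fun i y =>
    if blk (-(n : ℤ)) n y ∉ S (L + i) ∨ ‖e (θ (L + i) y) - ρ (L + i) y‖ ≤ τ then 0
    else arc M (θ (L + i) y) with hV
  have hVm : ∀ i, Measurable (V i) := by
    intro i
    refine Measurable.ite ?_ measurable_const ?_
    · refine MeasurableSet.union ?_ ?_
      · exact (measurable_blk _ _ (Set.toFinite (S (L + i))ᶜ).measurableSet)
      · exact measurableSet_le (((measurable_e.comp (hθm _)).sub (hρm _)).norm) measurable_const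
    · exact hfin _ _ K' (fun w => arc M ((b : ℝ) ^ (l + (L + (i : ℕ))) * X * num w))
  have hVs : ∀ i, ent μ (V i) ≤ δ := by
    intro i
    refine hsmall b μ (V i) (hVm i) ?_
    set k := L + (i : ℕ) with hk
    have hi : (i : ℕ) < K - L := i.2
    have h2 := hest k (by omega) (by omega)
    have hDm : Measurable (fun y => ‖e (θ k y) - ρ k y‖) :=
      ((measurable_e.comp (hθm k)).sub (hρm k)).norm
    have h3 : {y | V i y ≠ 0} ⊆ symmDiff (𝒜 k) {y | blk (-(n : ℤ)) n y ∈ S k} ∪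
        ({y | τ ≤ ‖e (θ k y) - ρ k y‖} ∩ 𝒜 k) := by
      intro y hy
      simp only [hV, Set.mem_ofPred_eq, ne_eq, ite_eq_left_iff, not_or, not_not, not_le,
        Classical.not_imp, ← hk] at hy
      by_cases hyA : y ∈ 𝒜 k
      · exact Or.inr ⟨hy.1.2.le, hyA⟩
      · exact Or.inl (Or.inr ⟨hy.1.1, hyA⟩)
    have h4 := mul_meas_ge_le_integral_of_nonneg (μ := μ.restrict (𝒜 k))
      (f := fun y => ‖e (θ k y) - ρ k y‖) (Eventually.of_forall fun y => norm_nonneg _)
      (hint _ ((measurable_e.comp (hθm k)).sub (hρm k))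
            (fun y => hsub2 _ _ (norm_e _) (hρ1 _ _))).integrableOn τ
    have h4' : (μ.restrict (𝒜 k)).real {y | τ ≤ ‖e (θ k y) - ρ k y‖} =
        μ.real ({y | τ ≤ ‖e (θ k y) - ρ k y‖} ∩ 𝒜 k) := by
      rw [measureReal_restrict_apply (measurableSet_le measurable_const hDm)]
    rw [h4'] at h4
    have h6 : τ * μ.real ({y | τ ≤ ‖e (θ k y) - ρ k y‖} ∩ 𝒜 k) ≤ 4 * ε := h4.trans h2
    have h7 : 4 * ε = τ * (p / 2) := by rw [hε]; ring
    rw [h7] at h6
    have h8 := le_of_mul_le_mul_left h6 hτ0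
    have h9 : μ.real (symmDiff (𝒜 k) {y | blk (-(n : ℤ)) n y ∈ S k}) ≤ p / 2 :=
      (hS k (by omega)).trans (min_le_left _ _)
    calc μ.real {y | V i y ≠ 0} ≤ μ.real (symmDiff (𝒜 k) {y | blk (-(n : ℤ)) n y ∈ S k} ∪
        ({y | τ ≤ ‖e (θ k y) - ρ k y‖} ∩ 𝒜 k)) := measureReal_mono h3
      _ ≤ _ := measureReal_union_le _ _
      _ ≤ p := by linarith
  -- the bad pasts
  set Jh : (Fin n → Fin b) → Finset ℕ := fun w => (Finset.Ico L K).filter fun j => w ∈ S j with hJh
  set bad : (Fin n → Fin b) → Prop := fun w => η * K <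
    (((Finset.Ico L K).filter fun t => ∀ j ∈ Jh w, ¬ (j ≤ t ∧ t < j + R)).card : ℝ) with hbad
  set V' : Fin K' → Sq b → Fin (b + 1) := fun i y =>
    if bad (blk (-(n : ℤ)) n y) then (blk 0 K' y i).succ else 0 with hV'
  have hV'm : ∀ i, Measurable (V' i) := by
    intro i
    refine Measurable.ite ?_ ?_ measurable_const
    · exact (measurable_blk _ _ (Set.toFinite {w | bad w}).measurableSet)
    · exact hfin _ _ K' (fun w => (w i).succ)
  have hbadm : μ.real {y | bad (blk (-(n : ℤ)) n y)} ≤ p' := by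
    set T : Finset ℕ := Finset.Ico (L + R) K with hT
    set E1 : Set (Sq b) := {y : Sq b | η / 2 * K < ((T.filter fun t => ∀ i : ℕ, i < R →
      sh (((l + K' + t : ℕ) : ℤ) - i) y ∉ A).card : ℝ)} with hE1
    have h3 : {y | bad (blk (-(n : ℤ)) n y)} ⊆
        (⋃ j ∈ Finset.range K, symmDiff (𝒜 j) {y | blk (-(n : ℤ)) n y ∈ S j}) ∪ E1 := by
      intro y hy
      by_cases hyu : y ∈ ⋃ j ∈ Finset.range K, symmDiff (𝒜 j) {y | blk (-(n : ℤ)) n y ∈ S j}
      · exact Or.inl hyu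
      · right
        have hyu' : ∀ j, j < K → (y ∈ 𝒜 j ↔ blk (-(n : ℤ)) n y ∈ S j) := by
          intro j hj
          by_contra hne
          apply hyu
          simp only [Set.mem_iUnion, Finset.mem_range]
          refine ⟨j, hj, ?_⟩
          rw [Set.mem_symmDiff]
          simp only [Set.mem_ofPred_eq]
          tauto
        have hy' : η * K < (((Finset.Ico L K).filter fun t => ∀ j ∈ Jh (blk (-(n : ℤ)) n y),
          ¬ (j ≤ t ∧ t < j + R)).card : ℝ) := hy
        have hsub : ((Finset.Ico L K).filter fun t => ∀ j ∈ Jh (blk (-(n : ℤ)) n y),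
          ¬ (j ≤ t ∧ t < j + R)) ⊆ Finset.Ico L (L + R) ∪ (T.filter fun t => ∀ i : ℕ, i < R →
            sh (((l + K' + t : ℕ) : ℤ) - i) y ∉ A) := by
          intro t ht
          rw [Finset.mem_filter, Finset.mem_Ico] at ht
          rw [Finset.mem_union, Finset.mem_Ico, Finset.mem_filter, hT, Finset.mem_Ico]
          by_cases htR : t < L + R
          · exact Or.inl ⟨ht.1.1, htR⟩
          · right
            refine ⟨⟨by omega, ht.1.2⟩, fun i hi hmem => ?_⟩
            have hmem' : y ∈ 𝒜 (t - i) := by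
              simp only [h𝒜, Set.mem_ofPred_eq]
              have : ((l + (t - i) + K' : ℕ) : ℤ) = ((l + K' + t : ℕ) : ℤ) - i := by
                push_cast [Nat.cast_sub (show i ≤ t by omega)]; ring
              rw [this]; exact hmem
            rw [hyu' (t - i) (by omega)] at hmem'
            refine ht.2 (t - i) ?_ ⟨by omega, by omega⟩
            simp only [hJh, Finset.mem_filter, Finset.mem_Ico]
            exact ⟨⟨by omega, by omega⟩, hmem'⟩
        have hcard := (Finset.card_le_card hsub).trans (Finset.card_union_le _ _)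
        rw [Nat.card_Ico, Nat.add_sub_cancel_left] at hcard
        have hcard' : (((Finset.Ico L K).filter fun t => ∀ j ∈ Jh (blk (-(n : ℤ)) n y),
          ¬ (j ≤ t ∧ t < j + R)).card : ℝ) ≤ R + ((T.filter fun t => ∀ i : ℕ, i < R →
            sh (((l + K' + t : ℕ) : ℤ) - i) y ∉ A).card : ℝ) := by exact_mod_cast hcard
        simp only [hE1, Set.mem_ofPred_eq]
        linarith
    have h4 : μ.real E1 ≤ p' / 2 := by
      have h5 := unc_markov hst A hAm R (η * p' / 4) hR (l + K') T (η / 2 * K) (by positivity)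
      refine h5.trans ?_
      rw [div_le_iff₀ (by positivity)]
      have hTc : (T.card : ℝ) ≤ K := by
        rw [hT, Nat.card_Ico]; exact_mod_cast Nat.sub_le _ _
      have : (T.card : ℝ) * (η * p' / 4) ≤ K * (η * p' / 4) :=
        mul_le_mul_of_nonneg_right hTc (by positivity)
      refine this.trans (le_of_eq ?_)
      ring
    have h5 : μ.real (⋃ j ∈ Finset.range K, symmDiff (𝒜 j) {y | blk (-(n : ℤ)) n y ∈ S j}) ≤
        p' / 2 := by
      refine (measureReal_biUnion_finset_le _ _).trans ?_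
      refine (Finset.sum_le_card_nsmul _ _ (p' / (2 * K)) fun j hj => ?_).trans (le_of_eq ?_)
      · exact (hS j (Finset.mem_range.1 hj)).trans (min_le_right _ _)
      · rw [Finset.card_range, nsmul_eq_mul]
        field_simp
    calc μ.real {y | bad (blk (-(n : ℤ)) n y)} ≤ _ := measureReal_mono h3
      _ ≤ _ := measureReal_union_le _ _
      _ ≤ p' := by linarith
  have hV's : ∀ i, ent μ (V' i) ≤ hh / 8 := by
    intro i
    refine hsmall' b μ (V' i) (hV'm i) ((measureReal_mono fun y hy => ?_).trans hbadm)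
    by_contra hby
    apply hy
    simp only [hV']
    exact if_neg hby
  have hdet : ∀ y y', blk (-(n : ℤ)) n y = blk (-(n : ℤ)) n y' → blk K' K y = blk K' K y' →
      (∀ k, V k y = V k y') → (∀ k, V' k y = V' k y') → blk 0 K' y = blk 0 K' y' := by
    intro y y' hPP hF hVV hVV'
    by_cases hbw : bad (blk (-(n : ℤ)) n y)
    · funext i
      have h2 := hVV' i
      simp only [hV'] at h2
      rw [if_pos hbw, if_pos (hPP ▸ hbw)] at h2
      exact Fin.succ_injective _ h2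
    by_contra hne
    apply hnear
    have hF' := blk_eq_iff.1 hF
    -- closeness at the places of `J`
    have hclose : ∀ k ∈ Jh (blk (-(n : ℤ)) n y), ‖e (θ k y) - e (θ k y')‖ ≤ 4 * τ := by
      intro k hk
      simp only [hJh, Finset.mem_filter, Finset.mem_Ico] at hk
      obtain ⟨⟨hk1, hk2⟩, hkS⟩ := hk
      have hρe : ρ k y = ρ k y' := by
        simp only [hρ]
        have e1 : blk K' k y = blk K' k y' := blk_eq_iff.2 fun i hi => hF' i (by omega)
        have e2 : blk ((k : ℤ) + K' - L) L y = blk ((k : ℤ) + K' - L) L y' :=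
          blk_eq_iff.2 fun i hi => by
            have := hF' (k - L + i) (by omega)
            have e3 : (K' : ℤ) + ((k - L + i : ℕ) : ℤ) = (k : ℤ) + K' - L + i := by
              push_cast [Nat.cast_sub hk1]; ring
            rwa [e3] at this
        rw [hPP, e1, e2]
      have hVk := hVV ⟨k - L, by omega⟩
      simp only [hV] at hVk
      have hkk : L + (k - L) = k := by omega
      rw [hkk] at hVk
      have hkS' : blk (-(n : ℤ)) n y' ∈ S k := hPP ▸ hkS
      by_cases c1 : ‖e (θ k y) - ρ k y‖ ≤ τ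
      · by_cases c2 : ‖e (θ k y') - ρ k y'‖ ≤ τ
        · have e4 : e (θ k y) - e (θ k y') = (e (θ k y) - ρ k y) - (e (θ k y') - ρ k y') := by
            rw [hρe]; ring
          rw [e4]
          refine (norm_sub_le _ _).trans ((add_le_add c1 c2).trans ?_)
          linarith
        · rw [if_pos (Or.inr c1), if_neg (by rintro (h | h); exacts [h hkS', c2 h])] at hVk
          exact absurd hVk.symm (arc_ne_zero hM _)
      · by_cases c2 : ‖e (θ k y') - ρ k y'‖ ≤ τ
        · rw [if_neg (by rintro (h | h); exacts [h hkS, c1 h]), if_pos (Or.inr c2)] at hVk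
          exact absurd hVk (arc_ne_zero hM _)
        · rw [if_neg (by rintro (h | h); exacts [h hkS, c1 h]),
            if_neg (by rintro (h | h); exacts [h hkS', c2 h])] at hVk
          refine (arc_close hM hVk).trans ?_
          rw [hMdef, hτ]
          push_cast
          rw [mul_one_div, div_le_div_iff₀ (by positivity) (by positivity)]
          have : (0 : ℝ) < (b : ℝ) ^ (R + 2) := by positivity
          nlinarith [Real.pi_lt_d2]
    -- the number `D`
    have key : ∀ z z' : Fin K' → Fin b, num z' < num z →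
        (∀ k ∈ Jh (blk (-(n : ℤ)) n y), ‖e ((b : ℝ) ^ (l + k) * X * num z) -
          e ((b : ℝ) ^ (l + k) * X * num z')‖ ≤ 4 * τ) → Near b l L R K K' η X := by
      intro z z' hzz hcl
      refine ⟨num z - num z', by omega, lt_of_le_of_lt (Nat.sub_le _ _) (num_lt z),
        Jh (blk (-(n : ℤ)) n y), Finset.filter_subset _ _, ?_, ?_⟩
      · simp only [hbad, not_lt] at hbw
        exact hbw
      · intro k hk
        have h2 := hcl k hk
        set t : ℝ := (b : ℝ) ^ (l + k) * X * ((num z - num z' : ℕ) : ℝ) with ht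
        have h3 : (b : ℝ) ^ (l + k) * X * num z = t + (b : ℝ) ^ (l + k) * X * num z' := by
          rw [ht, Nat.cast_sub hzz.le]; ring
        have h4 : ‖e t - 1‖ ≤ 4 * τ := by
          rw [h3, e_add] at h2
          have h5 : e t * e ((b : ℝ) ^ (l + k) * X * num z') - e ((b : ℝ) ^ (l + k) * X * num z')
            = (e t - 1) * e ((b : ℝ) ^ (l + k) * X * num z') := by ring
          rwa [h5, norm_mul, norm_e, mul_one] at h2
        have h6 := (norm_e_sub_one_ge t).trans h4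
        have h7 := le_of_mul_le_mul_left h6 (by norm_num)
        exact h7
    rcases lt_trichotomy (num (blk 0 K' y)) (num (blk 0 K' y')) with hlt | heq | hgt
    · refine key _ _ hlt fun k hk => ?_
      rw [norm_sub_rev]
      exact hclose k hk
    · exact absurd (num_inj heq) hne
    · exact key _ _ hgt hclose
  have hmain := ent_det2 hst n K' K (K - L) M K' b V hVm V' hV'm hdet
  have hsum : ∑ k, ent μ (V k) ≤ K * δ := by
    refine (Finset.sum_le_sum fun k _ => hVs k).trans ?_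
    rw [Finset.sum_const, Finset.card_univ, Fintype.card_fin, nsmul_eq_mul]
    refine mul_le_mul_of_nonneg_right ?_ hδ0.le
    exact_mod_cast Nat.sub_le K L
  have hsum' : ∑ k, ent μ (V' k) ≤ K' * (hh / 8) := by
    refine (Finset.sum_le_sum fun k _ => hV's k).trans ?_
    rw [Finset.sum_const, Finset.card_univ, Fintype.card_fin, nsmul_eq_mul]
  have hKδ : (K : ℝ) * δ = K' * (hh / 8) := by
    rw [hK, hδ]; push_cast; field_simp
  have e5 : H (n + K' + K) = H (n + (K' + K)) := by rw [add_assoc]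
  have hmain' : H (n + (K' + K)) ≤ H n + H K + K' * (hh / 8) + K' * (hh / 8) := by
    rw [← e5]
    linarith
  have h8 : ((K' + K : ℕ) : ℝ) = K' + K := by push_cast; ring
  rw [h8] at hnH
  rw [div_lt_iff₀ hh0] at hK3
  nlinarith

end Pool.Agent.Helper5.NE
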