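import Pool.Agent.Helper5.NE.Defs
import Pool.Graph.R_pool_sql_team_39128cda.Lib.helper9_.Birkhoff

/-! Part POSD of swarm NE. -/

open MeasureTheory Filter Topology

namespace Pool.Agent.Helper5.NE

open Pool.Agent.Helper5.KM

variable {b : ℕ}

/-- pointwise ergodic theorem for an ergodic map -/
theorem birk {μ : Measure (Sq b)} [IsProbabilityMeasure μ] (h : Ergodic (sh 1) μ)
    {f : Sq b → ℝ} (hf : Integrable f μ) :
    ∀ᵐ y ∂μ, Tendsto (fun n => birkhoffAverage ℝ (sh 1) f n y) atTop (𝓝 (∫ y, f y ∂μ)) := by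
  have h1 := Pool.Agent.Lib.helper9.Birkhoff.birkhoff h.toMeasurePreserving hf
  set g := μ[f | MeasurableSpace.invariants (sh 1)] with hg
  have hgm : StronglyMeasurable[MeasurableSpace.invariants (sh 1)] g := stronglyMeasurable_condExp
  have hinv : g ∘ sh 1 = g := MeasurableSpace.comp_eq_of_measurable_invariants hgm.measurable
  have hle : MeasurableSpace.invariants (sh 1 : Sq b → Sq b) ≤ MeasurableSpace.pi :=
    MeasurableSpace.invariants_le _
  obtain ⟨c, hc⟩ := h.quasiErgodic.ae_eq_const_of_ae_eq_comp_ae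
    (hgm.mono hle).aestronglyMeasurable (Eventually.of_forall fun y => congrFun hinv y)
  have hcint : c = ∫ y, f y ∂μ := by
    have h2 : ∫ y, g y ∂μ = ∫ y, f y ∂μ := integral_condExp hle
    rw [← h2, integral_congr_ae hc]
    simp
  filter_upwards [h1, hc] with y hy hy2
  rw [← hcint]
  rw [hy2] at hy
  exact hy

theorem posd {μ : Measure (Sq b)} [IsProbabilityMeasure μ] (h : EProc b μ) :
    ∃ (κ α : ℝ) (p : Fin b → Sq b → ℝ), 0 < κ ∧ κ < 1 ∧ 0 < α ∧
      (∀ d, Measurable[past b 0] (p d)) ∧ (∀ d y, 0 ≤ p d y ∧ p d y ≤ 1) ∧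
      (∀ d, μ[({y : Sq b | y 0 = d}).indicator (fun _ => (1 : ℝ)) | past b 0] =ᵐ[μ] p d) ∧
      ∀ᵐ y ∂μ, ∀ᶠ n : ℕ in atTop, α * n ≤
        (((Finset.range n).filter fun j : ℕ => p (y (j : ℤ)) (sh (j : ℤ) y) ≤ 1 - κ).card : ℝ) := by
  classical
  obtain ⟨d₀, hd₀⟩ := h.pos
  set I : Fin b → Sq b → ℝ := fun d => ({y : Sq b | y 0 = d}).indicator (fun _ => (1 : ℝ)) with hI
  have hIm : ∀ d, MeasurableSet {y : Sq b | y 0 = d} := fun d => by
    have h9 : Measurable (fun y : Sq b => y 0) := measurable_pi_apply (0 : ℤ)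
    exact h9 (measurableSet_singleton d)
  have hIi : ∀ d, Integrable (I d) μ := fun d => (integrable_const _).indicator (hIm d)
  set p : Fin b → Sq b → ℝ := fun d y => max 0 (min 1 ((μ[I d | past b 0]) y)) with hp
  have hpm : ∀ d, Measurable[past b 0] (p d) := fun d => by
    have h1 : Measurable[past b 0] (μ[I d | past b 0]) := stronglyMeasurable_condExp.measurable
    exact Measurable.max (mδ := past b 0) measurable_const
      (Measurable.min (mδ := past b 0) measurable_const h1)
  have hpm' : ∀ d, Measurable (p d) := fun d => (hpm d).mono (past_le 0) le_rfl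
  have hp1 : ∀ d y, 0 ≤ p d y ∧ p d y ≤ 1 := fun d y =>
    ⟨le_max_left _ _, max_le zero_le_one (min_le_left _ _)⟩
  have hI0 : ∀ d y, 0 ≤ I d y ∧ I d y ≤ 1 := fun d y => by
    simp only [hI, Set.indicator_apply]
    split_ifs <;> norm_num
  have hpc : ∀ d, μ[I d | past b 0] =ᵐ[μ] p d := by
    intro d
    have h1 : 0 ≤ᵐ[μ] μ[I d | past b 0] := condExp_nonneg (Eventually.of_forall fun y => (hI0 d y).1)
    have h2 : μ[I d | past b 0] ≤ᵐ[μ] μ[fun _ => (1 : ℝ) | past b 0] :=
      condExp_mono (hIi d) (integrable_const _) (Eventually.of_forall fun y => (hI0 d y).2)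
    rw [condExp_const (past_le 0)] at h2
    filter_upwards [h1, h2] with y hy1 hy2
    have hy1' : (0 : ℝ) ≤ (μ[I d | past b 0]) y := hy1
    simp only [hp]
    rw [min_eq_right hy2, max_eq_right hy1']
  -- the digit is uncertain with positive probability
  have hpos : μ {y : Sq b | p (y 0) y < 1} ≠ 0 := by
    intro h0
    set A : Set (Sq b) := {y | p d₀ y = 1} with hA
    have hAm : MeasurableSet[past b 0] A := (hpm d₀) (measurableSet_singleton 1)
    apply hd₀ A hAm
    -- a.e. on `{y 0 = d₀}` we have `p d₀ = 1`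
    have h1 : ∀ᵐ y ∂μ, y 0 = d₀ → y ∈ A := by
      have h2 := measure_eq_zero_iff_ae_notMem.1 h0
      filter_upwards [h2] with y hy hyd
      have h3 : ¬ p (y 0) y < 1 := hy
      rw [hyd] at h3
      exact le_antisymm (hp1 d₀ y).2 (not_lt.1 h3)
    -- a.e. on `A` we have `y 0 = d₀`
    have h4 : ∫ y in A, I d₀ y ∂μ = ∫ y in A, p d₀ y ∂μ := by
      rw [← setIntegral_condExp (past_le 0) (hIi d₀) hAm]
      exact integral_congr_ae (ae_restrict_of_ae (hpc d₀))
    have hAm' : MeasurableSet A := past_le 0 _ hAm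
    have h5 : ∫ y in A, p d₀ y ∂μ = ∫ y in A, (1 : ℝ) ∂μ :=
      setIntegral_congr_fun hAm' fun y hy => hy
    have h6 : ∫ y in A, ((1 : ℝ) - I d₀ y) ∂μ = 0 := by
      rw [integral_sub (integrable_const _) (hIi d₀).integrableOn, h4, h5, sub_self]
    have h7 : (fun y => (1 : ℝ) - I d₀ y) =ᵐ[μ.restrict A] 0 := by
      refine (integral_eq_zero_iff_of_nonneg (fun y => ?_) ?_).1 h6
      · simp only [Pi.zero_apply]; linarith [(hI0 d₀ y).2]
      · exact (integrable_const _).sub (hIi d₀).integrableOn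
    have h8 : ∀ᵐ y ∂μ, y ∈ A → y 0 = d₀ := by
      have h9 := (ae_restrict_iff' hAm').1 h7
      filter_upwards [h9] with y hy hyA
      have h10 := hy hyA
      simp only [Pi.zero_apply, hI, Set.indicator_apply, Set.mem_ofPred_eq] at h10
      by_contra hne
      rw [if_neg hne] at h10
      norm_num at h10
    filter_upwards [h1, h8] with y hy1 hy2
    exact propext ⟨hy2, hy1⟩
  -- uniformly uncertain
  set E : ℕ → Set (Sq b) := fun k => {y : Sq b | p (y 0) y ≤ 1 - 1 / ((k : ℝ) + 2)} with hE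
  have hEm : ∀ k, MeasurableSet (E k) := by
    intro k
    have : E k = ⋃ d : Fin b, ({y : Sq b | y 0 = d} ∩ {y | p d y ≤ 1 - 1 / ((k : ℝ) + 2)}) := by
      ext y
      simp only [hE, Set.mem_ofPred_eq, Set.mem_iUnion, Set.mem_inter_iff]
      constructor
      · intro hy; exact ⟨y 0, rfl, hy⟩
      · rintro ⟨d, hd, hy⟩; rw [hd]; exact hy
    rw [this]
    exact MeasurableSet.iUnion fun d => (hIm d).inter ((hpm' d) measurableSet_Iic)
  obtain ⟨k, hk⟩ : ∃ k, μ (E k) ≠ 0 := by
    by_contra hcon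
    push Not at hcon
    apply hpos
    refine measure_mono_null (fun y hy => ?_) (measure_iUnion_null hcon)
    have hy' : p (y 0) y < 1 := hy
    obtain ⟨n, hn⟩ := exists_nat_gt (1 / (1 - p (y 0) y))
    rw [Set.mem_iUnion]
    refine ⟨n, ?_⟩
    simp only [hE, Set.mem_ofPred_eq]
    have h1 : 0 < 1 - p (y 0) y := by linarith
    rw [div_lt_iff₀ h1] at hn
    have h2 : 1 / ((n : ℝ) + 2) ≤ 1 - p (y 0) y := by
      rw [div_le_iff₀ (by positivity)]
      nlinarith
    linarith
  have hEr : 0 < μ.real (E k) := by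
    rw [measureReal_def]
    exact ENNReal.toReal_pos hk (measure_ne_top _ _)
  refine ⟨1 / ((k : ℝ) + 2), μ.real (E k) / 2, p, by positivity, ?_, by positivity, hpm, hp1,
    hpc, ?_⟩
  · rw [div_lt_one (by positivity)]
    have : (0 : ℝ) ≤ k := Nat.cast_nonneg k
    linarith
  · have hb := birk h.erg ((integrable_const (1 : ℝ)).indicator (hEm k) (μ := μ))
    rw [integral_indicator_const _ (hEm k), smul_eq_mul, mul_one] at hb
    filter_upwards [hb] with y hy
    have h1 := hy.eventually (lt_mem_nhds (show μ.real (E k) / 2 < μ.real (E k) by linarith))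
    filter_upwards [h1, eventually_gt_atTop 0] with n hn hn0
    have hn0' : (0 : ℝ) < n := by exact_mod_cast hn0
    have hsum : birkhoffAverage ℝ (sh 1) ((E k).indicator fun _ => (1 : ℝ)) n y =
        (((Finset.range n).filter fun j : ℕ => p (y (j : ℤ)) (sh (j : ℤ) y) ≤
          1 - 1 / ((k : ℝ) + 2)).card : ℝ) / n := by
      unfold birkhoffAverage birkhoffSum
      rw [smul_eq_mul, inv_mul_eq_div, Finset.card_filter]
      push_cast
      congr 1
      refine Finset.sum_congr rfl fun j _ => ?_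
      have h3 : (sh 1)^[j] y = sh (j : ℤ) y := by
        clear * -
        induction j with
        | zero => simp [sh_zero]
        | succ j ih =>
          rw [Function.iterate_succ_apply', ih, sh_sh]
          congr 1
          push_cast; ring
      rw [h3, Set.indicator_apply]
      have h4 : sh (j : ℤ) y 0 = y (j : ℤ) := by simp [sh]
      refine if_congr ?_ rfl rfl
      simp only [hE, Set.mem_ofPred_eq]
      rw [h4]
    rw [hsum, lt_div_iff₀ hn0'] at hn
    exact hn.le

end Pool.Agent.Helper5.NE
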