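import Pool.Agent.Helper5.NE.Defs
import Pool.Agent.Helper49.KM.ENT1
import Pool.Agent.Helper49.KM.APPROX

/-! Parts ENTDET, SETAP, GAP of swarm NE. -/

open MeasureTheory Filter Topology

namespace Pool.Agent.Helper5.NE

open Pool.Agent.Helper5.KM
open Pool.Agent.Helper49.KM (ent_le_of_det mb_prod mb_blk ent_prod_le ent_pi_le ent_blk Mb
  real_approx)

variable {b : ℕ}

theorem ent_det2 {μ : Measure (Sq b)} [IsProbabilityMeasure μ] (h : MeasurePreserving (sh 1) μ μ)
    (n K' K m M m' M' : ℕ) (V : Fin m → Sq b → Fin (M + 1)) (hV : ∀ k, Measurable (V k))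
    (V' : Fin m' → Sq b → Fin (M' + 1)) (hV' : ∀ k, Measurable (V' k))
    (hdet : ∀ y y', blk (-(n : ℤ)) n y = blk (-(n : ℤ)) n y' → blk K' K y = blk K' K y' →
      (∀ k, V k y = V k y') → (∀ k, V' k y = V' k y') → blk 0 K' y = blk 0 K' y') :
    ent μ (blk 0 (n + K' + K)) ≤
      ent μ (blk 0 n) + ent μ (blk 0 K) + ∑ k, ent μ (V k) + ∑ k, ent μ (V' k) := by
  have hVm : ∀ k, Mb (V k) := fun k a => hV k (measurableSet_singleton a)
  have hVm' : ∀ k, Mb (V' k) := fun k a => hV' k (measurableSet_singleton a)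
  have hpi : ∀ (m M : ℕ) (V : Fin m → Sq b → Fin (M + 1)), (∀ k, Mb (V k)) →
      Mb (fun y k => V k y) := by
    intro m M V hVm a
    have : ((fun y k => V k y) ⁻¹' {a} : Set (Sq b)) = ⋂ k, V k ⁻¹' {a k} := by
      ext y
      simp only [Set.mem_preimage, Set.mem_singleton_iff, Set.mem_iInter, funext_iff]
    rw [this]
    exact MeasurableSet.iInter fun k => hVm k _
  have hVp := hpi m M V hVm
  have hVp' := hpi m' M' V' hVm'
  have h1 : ent μ (blk (-(n : ℤ)) (n + K' + K)) ≤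
      ent μ (fun y => (((blk (-(n : ℤ)) n y, blk (K' : ℤ) K y), fun k => V k y),
        fun k => V' k y)) := by
    refine ent_le_of_det (mb_prod (mb_prod (mb_prod (mb_blk _ _) (mb_blk _ _)) hVp) hVp')
      (mb_blk _ _) ?_
    intro y y' hy
    rw [Prod.mk.injEq, Prod.mk.injEq, Prod.mk.injEq] at hy
    have h2 := hdet y y' hy.1.1.1 hy.1.1.2 (fun k => congrFun hy.1.2 k) (fun k => congrFun hy.2 k)
    funext i
    rcases lt_or_ge (i : ℕ) n with hi | hi
    · exact congrFun hy.1.1.1 ⟨i, hi⟩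
    · rcases lt_or_ge (i : ℕ) (n + K') with hi' | hi'
      · have h3 := congrFun h2 ⟨i - n, by omega⟩
        have h4 : (0 : ℤ) + ((i - n : ℕ) : ℤ) = -(n : ℤ) + (i : ℕ) := by omega
        simp only [blk] at h3 ⊢
        rwa [h4] at h3
      · have h3 := congrFun hy.1.1.2 ⟨i - (n + K'), by omega⟩
        have h4 : (K' : ℤ) + ((i - (n + K') : ℕ) : ℤ) = -(n : ℤ) + (i : ℕ) := by omega
        simp only [blk] at h3 ⊢
        rwa [h4] at h3
  rw [ent_blk h] at h1
  have h0 := ent_prod_le (μ := μ) (mb_prod (mb_prod (mb_blk (b := b) (-(n : ℤ)) n)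
    (mb_blk (K' : ℤ) K)) hVp) hVp'
  have h2 := ent_prod_le (μ := μ) (mb_prod (mb_blk (b := b) (-(n : ℤ)) n) (mb_blk (K' : ℤ) K)) hVp
  have h3 := ent_prod_le (μ := μ) (mb_blk (b := b) (-(n : ℤ)) n) (mb_blk (K' : ℤ) K)
  rw [ent_blk h, ent_blk h (K' : ℤ)] at h3
  have h4 := ent_pi_le (μ := μ) M m V hVm
  have h5 := ent_pi_le (μ := μ) M' m' V' hVm'
  linarith

theorem set_approx {μ : Measure (Sq b)} [IsProbabilityMeasure μ] (A : Set (Sq b))
    (hA : MeasurableSet[past b 0] A) (ε : ℝ) (hε : 0 < ε) :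
    ∃ n₀ : ℕ, ∀ n ≥ n₀, ∃ S : Set (Fin n → Fin b),
      μ.real (symmDiff A {y | blk (-(n : ℤ)) n y ∈ S}) ≤ ε := by
  classical
  have hAm : MeasurableSet A := past_le 0 _ hA
  obtain ⟨φ, hφ⟩ := real_approx (μ := μ) (A.indicator fun _ => (1 : ℝ))
    (stronglyMeasurable_const.indicator hA) (fun y => by
      rw [Set.indicator_apply]; split_ifs <;> simp)
  obtain ⟨n₀, hn₀⟩ := eventually_atTop.1 (hφ.eventually_le_const (half_pos hε))
  refine ⟨n₀, fun n hn => ⟨{w | 1 / 2 ≤ φ n w}, ?_⟩⟩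
  have h1 := hn₀ n hn
  have hm : Measurable (fun y : Sq b => φ n (blk (-(n : ℤ)) n y)) :=
    (measurable_of_finite (φ n)).comp (measurable_blk _ _)
  obtain ⟨B, hB⟩ : ∃ B : ℝ, ∀ w, |φ n w| ≤ B := by
    obtain ⟨B, hB⟩ := (Set.finite_range fun w => |φ n w|).bddAbove
    exact ⟨B, fun w => hB ⟨w, rfl⟩⟩
  have hi : Integrable (fun y => |A.indicator (fun _ => (1 : ℝ)) y - φ n (blk (-(n : ℤ)) n y)|) μ := by
    refine Integrable.abs (Integrable.sub ?_ ?_)
    · exact (integrable_const _).indicator hAm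
    · exact Integrable.of_bound hm.aestronglyMeasurable B
        (Eventually.of_forall fun y => by simpa using hB _)
  have h2 := mul_meas_ge_le_integral_of_nonneg (μ := μ) (Eventually.of_forall fun y => abs_nonneg
    (A.indicator (fun _ => (1 : ℝ)) y - φ n (blk (-(n : ℤ)) n y))) hi (1 / 2)
  have h3 : symmDiff A {y | blk (-(n : ℤ)) n y ∈ {w | 1 / 2 ≤ φ n w}} ⊆
      {y | 1 / 2 ≤ |A.indicator (fun _ => (1 : ℝ)) y - φ n (blk (-(n : ℤ)) n y)|} := by
    intro y hy
    rw [Set.mem_symmDiff] at hy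
    simp only [Set.mem_ofPred_eq, not_le] at hy ⊢
    rcases hy with ⟨hyA, hyn⟩ | ⟨hyn, hyA⟩
    · rw [Set.indicator_of_mem hyA]
      refine le_trans ?_ (le_abs_self _)
      linarith
    · rw [Set.indicator_of_notMem hyA, zero_sub, abs_neg]
      exact hyn.trans (le_abs_self _)
  have h4 := measureReal_mono (μ := μ) h3
  linarith

theorem gap {μ : Measure (Sq b)} [IsProbabilityMeasure μ] (h : Ergodic (sh 1) μ)
    (A : Set (Sq b)) (hA : MeasurableSet A) (hμ : μ A ≠ 0) (η : ℝ) (hη : 0 < η) :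
    ∃ R₀ : ℕ, ∀ R ≥ R₀, μ.real {y | ∀ i : ℕ, i < R → sh (-(i : ℤ)) y ∉ A} ≤ η := by
  set B : ℕ → Set (Sq b) := fun R => {y | ∀ i : ℕ, i < R → sh (-(i : ℤ)) y ∉ A} with hB
  have hBm : ∀ R, MeasurableSet (B R) := by
    intro R
    have : B R = ⋂ i : ℕ, ⋂ (_ : i < R), {y : Sq b | sh (-(i : ℤ)) y ∉ A} := by
      ext y; simp [hB]
    rw [this]
    exact MeasurableSet.iInter fun i => MeasurableSet.iInter fun _ =>
      (measurable_sh _ hA).compl
  have hanti : Antitone B := fun m n hmn y hy i hi => hy i (lt_of_lt_of_le hi hmn)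
  set Bi : Set (Sq b) := ⋂ R, B R with hBi
  have hBim : MeasurableSet Bi := MeasurableSet.iInter hBm
  have hmem : ∀ y, y ∈ Bi ↔ ∀ i : ℕ, sh (-(i : ℤ)) y ∉ A := by
    intro y
    simp only [hBi, hB, Set.mem_iInter, Set.mem_ofPred_eq]
    exact ⟨fun hy i => hy (i + 1) i (Nat.lt_succ_self i), fun hy R i _ => hy i⟩
  have hsub : sh 1 ⁻¹' Bi ⊆ Bi := by
    intro y hy
    rw [Set.mem_preimage, hmem] at hy
    rw [hmem]
    intro i
    have := hy (i + 1)
    rw [sh_sh] at this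
    rwa [show (-((i + 1 : ℕ) : ℤ) + 1) = -(i : ℤ) by push_cast; ring] at this
  have hinv : (sh 1 ⁻¹' Bi : Set (Sq b)) =ᵐ[μ] Bi := by
    refine ae_eq_of_subset_of_measure_ge hsub ?_ ?_ (measure_ne_top _ _)
    · rw [h.toMeasurePreserving.measure_preimage hBim.nullMeasurableSet]
    · exact (measurable_sh 1 hBim).nullMeasurableSet
  have h0 : μ Bi = 0 := by
    rcases h.quasiErgodic.ae_empty_or_univ₀ hBim.nullMeasurableSet hinv with h1 | h1
    · rw [measure_congr h1, measure_empty]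
    · exfalso
      apply hμ
      have h2 : μ Biᶜ = 0 := by
        rw [ae_eq_univ] at h1
        exact h1
      refine measure_mono_null (t := Biᶜ) (fun y hy => ?_) h2
      intro hy'
      rw [hmem] at hy'
      have := hy' 0
      rw [Nat.cast_zero, neg_zero, sh_zero] at this
      exact this hy
  have hlim : Tendsto (fun R => μ (B R)) atTop (𝓝 0) := by
    rw [← h0]
    exact tendsto_measure_iInter_atTop (fun R => (hBm R).nullMeasurableSet) hanti
      ⟨0, measure_ne_top _ _⟩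
  have hlim' := (ENNReal.tendsto_toReal ENNReal.zero_ne_top).comp hlim
  rw [ENNReal.toReal_zero] at hlim'
  obtain ⟨R₀, hR₀⟩ := eventually_atTop.1 (hlim'.eventually_le_const hη)
  exact ⟨R₀, fun R hR => hR₀ R hR⟩

end Pool.Agent.Helper5.NE
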